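import Pool.Agent.Work.MP_d956f3_nt.Gen

set_option autoImplicit false

/-! # MP_d956f3_nt: embeddings of subfields of `Q2` -/

namespace Pool.Agent.TPU

open NumberField

variable {K F M : IntermediateField ℚ ℝ}

/-- embeddings -/
abbrev XF (F : IntermediateField ℚ ℝ) : Type := F →ₐ[ℚ] Q2

/-- restriction of an endomorphism -/
noncomputable def res (hF : F ≤ Q2) (σ : Gam) : XF F := σ.comp (IntermediateField.inclusion hF)

theorem res_apply (hF : F ≤ Q2) (σ : Gam) (x : F) : res hF σ x = σ ⟨x, hF x.2⟩ := rfl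

theorem exists_ext (hF : F ≤ Q2) (φ : XF F) : ∃ σ : Gam, res hF σ = φ := by
  let _ : Algebra F Q2 := (IntermediateField.inclusion hF).toRingHom.toAlgebra
  have : IsScalarTower ℚ F Q2 := IsScalarTower.of_algebraMap_eq (fun x => rfl)
  have := normal_Q2
  refine ⟨φ.liftNormal Q2, ?_⟩
  apply AlgHom.ext
  intro x
  exact φ.liftNormal_commutes Q2 x

theorem comm (σ τ : Gam) (x : Q2) : σ (τ x) = τ (σ x) := by
  have h1 : (σ.comp τ) (τ (σ x)) = x := by
    rw [AlgHom.comp_apply, invol, invol]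
  have h2 := congrArg (σ.comp τ) h1
  rw [invol] at h2
  rw [h2]
  rfl

/-- elements fixed by the endomorphisms that fix `M` are in `M` -/
theorem mem_of_fixed (hM : M ≤ Q2) (x : Q2)
    (h : ∀ σ : Gam, (∀ y : Q2, (y : ℝ) ∈ M → σ y = y) → σ x = x) : (x : ℝ) ∈ M := by
  have hE := @InfiniteGalois.fixedField_fixingSubgroup ℚ Q2 _ _ _ (IntermediateField.restrict hM)
    (by convert! isGalois_Q2 using 1)
  have h1 : x ∈ IntermediateField.restrict hM := by
    rw [← hE, IntermediateField.mem_fixedField_iff]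
    intro f hf
    rw [IntermediateField.mem_fixingSubgroup_iff] at hf
    let σ : Gam := (f : Q2 →+* Q2).toRatAlgHom
    refine h σ (fun y hy => ?_)
    exact hf y ((IntermediateField.mem_restrict hM _).2 hy)
  exact (IntermediateField.mem_restrict hM _).1 h1

theorem stab (hF : F ≤ Q2) (σ : Gam) {x : Q2} (hx : (x : ℝ) ∈ F) : ((σ x : Q2) : ℝ) ∈ F := by
  apply mem_of_fixed hF
  intro τ hτ
  rw [comm, hτ x hx]

/-- induction: everything is a rational combination of the roots -/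
theorem span_ind (hK : K ≤ Q2) {p : K → Prop}
    (h1 : ∀ (n : ℕ) (h : √(n : ℝ) ∈ K), Squarefree n → p ⟨√(n : ℝ), h⟩) (h0 : p 0)
    (ha : ∀ x y, p x → p y → p (x + y)) (hs : ∀ (q : ℚ) x, p x → p ((q : K) * x)) (x : K) : p x := by
  obtain ⟨x, hx⟩ := x
  have h3 : ∀ y ∈ Submodule.span ℚ {y : ℝ | ∃ n : ℕ, Squarefree n ∧ √(n : ℝ) ∈ K ∧ y = √(n : ℝ)},
      ∃ hy : y ∈ K, p ⟨y, hy⟩ := by
    intro y hy
    induction hy using Submodule.span_induction with
    | mem y hy =>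
      obtain ⟨n, h2, h3, rfl⟩ := hy
      exact ⟨h3, h1 n h3 h2⟩
    | zero => exact ⟨zero_mem K, h0⟩
    | add y z _ _ hy hz =>
      obtain ⟨hy1, hy2⟩ := hy
      obtain ⟨hz1, hz2⟩ := hz
      exact ⟨add_mem hy1 hz1, ha _ _ hy2 hz2⟩
    | smul q y _ hy =>
      obtain ⟨hy1, hy2⟩ := hy
      have hm : q • y ∈ K := K.smul_mem hy1
      refine ⟨hm, ?_⟩
      have : (⟨q • y, hm⟩ : K) = (q : K) * ⟨y, hy1⟩ := by
        apply Subtype.ext
        change q • y = ((q : K) : ℝ) * y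
        rw [Rat.smul_def]
        congr 1
      rw [this]
      exact hs q _ hy2
  exact (h3 x (gen hK hx)).2

theorem root_sq {n : ℕ} (h : √(n : ℝ) ∈ K) : (⟨√(n : ℝ), h⟩ : K) * ⟨√(n : ℝ), h⟩ = (n : K) := by
  apply Subtype.ext
  change √(n : ℝ) * √(n : ℝ) = ((n : K) : ℝ)
  rw [Real.mul_self_sqrt (Nat.cast_nonneg n)]
  rfl

theorem emb_mem (hK : K ≤ Q2) (φ : K →+* ℝ) (x : K) : φ x ∈ Q2 := by
  induction x using span_ind hK with
  | h1 n h _ =>
    have h4 : φ ⟨_, h⟩ * φ ⟨_, h⟩ = √(n : ℝ) * √(n : ℝ) := by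
      rw [← map_mul, Real.mul_self_sqrt (Nat.cast_nonneg n), root_sq h, map_natCast]
    rcases mul_self_eq_mul_self_iff.1 h4 with h5 | h5
    · rw [h5]
      exact sqrt_mem n
    · rw [h5]
      exact neg_mem (sqrt_mem n)
  | h0 =>
    rw [map_zero]
    exact zero_mem Q2
  | ha x y hx hy =>
    rw [map_add]
    exact add_mem hx hy
  | hs q x hx =>
    rw [map_mul, map_ratCast]
    exact mul_mem (Q2.algebraMap_mem q) hx

theorem emb_real (hK : K ≤ Q2) (φ : K →+* ℂ) (x : K) : (starRingEnd ℂ) (φ x) = φ x := by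
  induction x using span_ind hK with
  | h1 n h _ =>
    have h4 : φ ⟨_, h⟩ * φ ⟨_, h⟩ = ((√(n : ℝ) : ℝ) : ℂ) * ((√(n : ℝ) : ℝ) : ℂ) := by
      rw [← map_mul, ← Complex.ofReal_mul, Real.mul_self_sqrt (Nat.cast_nonneg n), root_sq h,
        map_natCast, Complex.ofReal_natCast]
    rcases mul_self_eq_mul_self_iff.1 h4 with h5 | h5
    · rw [h5, Complex.conj_ofReal]
    · rw [h5, map_neg, Complex.conj_ofReal]
  | h0 => rw [map_zero, map_zero]
  | ha x y hx hy => rw [map_add, map_add, hx, hy]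
  | hs q x hx => rw [map_mul, map_mul, hx, map_ratCast, map_ratCast]

/-- every real embedding is the restriction of an endomorphism -/
theorem emb_eq (hK : K ≤ Q2) (φ : K →+* ℝ) : ∃ σ : Gam, ∀ x : K, φ x = ((res hK σ x : Q2) : ℝ) := by
  let ψ : XF K := AlgHom.codRestrict φ.toRatAlgHom Q2.toSubalgebra (fun x => emb_mem hK φ x)
  obtain ⟨σ, hσ⟩ := exists_ext hK ψ
  refine ⟨σ, fun x => ?_⟩
  rw [hσ]
  rfl

/-- the real embedding of an endomorphism -/
noncomputable def emb (hK : K ≤ Q2) (σ : Gam) : K →+* ℝ := (Q2.val.comp (res hK σ)).toRingHom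

theorem emb_apply (hK : K ≤ Q2) (σ : Gam) (x : K) : emb hK σ x = ((res hK σ x : Q2) : ℝ) := rfl

theorem pos_iff (hK : K ≤ Q2) (r : ℝ) :
    Pos K r ↔ ∃ h : r ∈ K, ∀ σ : Gam, 0 < ((σ ⟨r, hK h⟩ : Q2) : ℝ) := by
  constructor
  · rintro ⟨h, h1⟩
    refine ⟨h, fun σ => ?_⟩
    exact h1 (emb hK σ)
  · rintro ⟨h, h1⟩
    refine ⟨h, fun φ => ?_⟩
    obtain ⟨σ, hσ⟩ := emb_eq hK φ
    rw [hσ]
    exact h1 σ

section finite

variable [FiniteDimensional ℚ F]

theorem card_XF (hF : F ≤ Q2) : Nat.card (XF F) = Module.finrank ℚ F := by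
  apply AlgHom.natCard_of_splits
  intro x
  have h1 : minpoly ℚ x = minpoly ℚ (⟨x, hF x.2⟩ : Q2) := by
    have e1 : minpoly ℚ (⟨x, hF x.2⟩ : Q2) = minpoly ℚ (x : ℝ) := IntermediateField.minpoly_eq _
    have e2 : minpoly ℚ x = minpoly ℚ (x : ℝ) := IntermediateField.minpoly_eq _
    rw [e1, e2]
  rw [h1]
  exact normal_Q2.splits _

end finite

end Pool.Agent.TPU
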