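import Pool.Agent.Work.MP_d956f3_nt.R.Unr

set_option autoImplicit false

/-! # MP_d956f3_nt: descent of square classes -/

namespace Pool.Agent.TPU

open NumberField NumberField.Units

variable {K E F M : IntermediateField ℚ ℝ}

/-- if `τ` fixes the field of `fx W σ` then `τ` or `τ σ` fixes the field of `W` -/
theorem dich {W : Submodule (ZMod 2) SC} {σ τ : Gam} {v : SC} (hv : v ∈ W) (hσ : cv v σ = 1)
    (h : ∀ w ∈ fx W σ, cv w τ = 0) :
    (∀ w ∈ W, cv w τ = 0) ∨ ∀ w ∈ W, cv w (τ.comp σ) = 0 := by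
  have key : ∀ w ∈ W, cv w τ = cv v τ * cv w σ := by
    intro w hw
    rcases zmod2_cases (cv w σ) with h1 | h1
    · rw [h w ⟨hw, h1⟩, h1, mul_zero]
    · have h2 : w + v ∈ fx W σ := ⟨W.add_mem hw hv, by
        change cv (w + v) σ = 0
        rw [cv_add, h1, hσ]
        rfl⟩
      have h3 := h _ h2
      rw [cv_add] at h3
      rw [h1, mul_one]
      calc cv w τ = cv w τ + (cv v τ + cv v τ) := by rw [zmod2_add_self, add_zero]
        _ = cv v τ := by rw [← add_assoc, h3, zero_add]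
  rcases zmod2_cases (cv v τ) with h1 | h1
  · left
    intro w hw
    rw [key w hw, h1, zero_mul]
  · right
    intro w hw
    rw [cv_comp, key w hw, h1, one_mul, zmod2_add_self]

/-- An element `u` of a multiquadratic field such that `u σ(u)` is the square of an element fixed
by `σ`, for all `σ`, is a rational number times a square. -/
theorem descent {W₀ : Submodule (ZMod 2) SC} (hPS : W₀ ≤ PS)
    (u : Q2) (hu : u ≠ 0)
    (hw : ∀ σ : Gam, ∃ w : Q2, (w : ℝ) ∈ EW W₀ ∧ w ^ 2 = u * σ u ∧ σ w = w)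
    (W : Submodule (ZMod 2) SC) (hW : (W : Set SC).Finite) :
    W ≤ W₀ → ∀ a y : Q2, (a : ℝ) ∈ EW W → (y : ℝ) ∈ EW W₀ → u = a * y ^ 2 →
    ∃ (r : ℚ) (z : Q2), (z : ℝ) ∈ EW W₀ ∧ u = (r : Q2) * z ^ 2 := by
  refine W_induction (p := fun W => W ≤ W₀ → ∀ a y : Q2, (a : ℝ) ∈ EW W → (y : ℝ) ∈ EW W₀ →
    u = a * y ^ 2 → ∃ (r : ℚ) (z : Q2), (z : ℝ) ∈ EW W₀ ∧ u = (r : Q2) * z ^ 2) ?_ W hW
  clear hW W
  intro W hW ih hWW a y ha hy huy
  by_cases hbot : W = ⊥
  · subst hbot
    obtain ⟨r, rfl⟩ := EW_bot ha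
    exact ⟨r, y, hy, huy⟩
  obtain ⟨v, hv, hv0⟩ := (Submodule.ne_bot_iff W).1 hbot
  obtain ⟨σ, hσ⟩ := cv_one (hPS (hWW hv)) hv0
  have hlt := fx_lt hv hσ
  have hWPS : W ≤ PS := hWW.trans hPS
  have ha0 : a ≠ 0 := by
    rintro rfl
    rw [zero_mul] at huy
    exact hu huy
  have hy0 : y ≠ 0 := by
    rintro rfl
    apply hu
    rw [huy]
    ring
  have hs0 : ∀ (s : Gam) (x : Q2), x ≠ 0 → s x ≠ 0 := fun s x hx => by
    rw [Ne, map_eq_zero]
    exact hx
  choose w hwm hw2 hwf using hw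
  -- the elements `b`
  have hb2 : ∀ s : Gam, (w s / (y * s y)) ^ 2 = a * s a := by
    intro s
    have h1 := hw2 s
    have h2 := hs0 s y hy0
    rw [div_pow, h1, huy, map_mul, map_pow]
    field_simp
  have hbf : ∀ s : Gam, s (w s / (y * s y)) = w s / (y * s y) := by
    intro s
    rw [map_div₀, map_mul, invol, hwf, mul_comm (s y) y]
  set b := w σ / (y * σ y) with hb
  -- automorphisms which act on the field of `W` like `σ`
  have hcase : ∀ s : Gam, (∀ t ∈ W, cv t (s.comp σ) = 0) → s b = b := by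
    intro s hs
    have h1 : s a = σ a := by
      have h2 : (s.comp σ) a = a := fix_of_cv hs ha
      have h3 : s (σ a) = a := h2
      have h4 := congrArg s h3
      rw [invol] at h4
      exact h4.symm
    have h2 : (w s / (y * s y)) * (w s / (y * s y)) = b * b := by
      rw [← _root_.sq, ← _root_.sq, hb2, hb2, h1]
    rcases mul_self_eq_mul_self_iff.1 h2 with h3 | h3
    · have h4 := hbf s
      rw [h3] at h4
      exact h4
    · have h4 := hbf s
      rw [h3, map_neg] at h4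
      exact neg_injective h4
  have hbm0 : (b : ℝ) ∈ EW (fx W σ) := by
    apply mem_of_fixed (EW_le _)
    intro τ hτ
    have hτc : ∀ w ∈ fx W σ, cv w τ = 0 := fun w hw =>
      cv_of_fix ((fx_le W σ).trans hWPS) hτ hw
    rcases dich hv hσ hτc with h1 | h1
    · have h2 : (σ.comp τ) b = b := by
        apply hcase
        intro t ht
        rw [cv_comp, cv_comp, h1 t ht, add_zero, zmod2_add_self]
      have h3 : σ (τ b) = b := h2
      have h4 := congrArg σ h3
      rw [invol] at h4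
      rw [h4]
      exact hbf σ
    · exact hcase τ h1
  -- the choice of the sign
  have hstep : ∀ b' : Q2, (b' : ℝ) ∈ EW (fx W σ) → b' ^ 2 = a * σ a → a + b' ≠ 0 →
      ∃ (r : ℚ) (z : Q2), (z : ℝ) ∈ EW W₀ ∧ u = (r : Q2) * z ^ 2 := by
    intro b' hb'm hb'2 hne
    have hσb' : σ b' = b' := fix_of_cv (W := fx W σ) (fun t ht => (mem_fx.1 ht).2) hb'm
    set a' := a + σ a + 2 * b' with ha'
    have h1 : (a + b') ^ 2 = a * a' := by
      rw [ha']
      calc (a + b') ^ 2 = a ^ 2 + 2 * a * b' + b' ^ 2 := by ring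
        _ = a ^ 2 + 2 * a * b' + a * σ a := by rw [hb'2]
        _ = _ := by ring
    have ha'0 : a' ≠ 0 := by
      intro h2
      rw [h2, mul_zero] at h1
      exact hne (pow_eq_zero_iff two_ne_zero |>.1 h1)
    have ha'm : (a' : ℝ) ∈ EW (fx W σ) := by
      apply fixed_mem
      · have h2 : (a' : ℝ) = (a : ℝ) + ((σ a : Q2) : ℝ) + 2 * (b' : ℝ) := rfl
        rw [h2]
        exact add_mem (add_mem ha (stab (EW_le W) σ ha))
          (mul_mem (ofNat_mem _ 2) (EW_mono (fx_le W σ) hb'm))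
      · rw [ha', map_add, map_add, map_mul, map_ofNat, invol, hσb']
        ring
    refine ih (fx W σ) hlt ((fx_le W σ).trans hWW) a' ((a + b') / a' * y) ha'm ?_ ?_
    · have h2 : (((a + b') / a' * y : Q2) : ℝ) = ((a : ℝ) + (b' : ℝ)) / (a' : ℝ) * (y : ℝ) := rfl
      rw [h2]
      have h3 := EW_mono ((fx_le W σ).trans hWW)
      exact mul_mem (div_mem (add_mem (EW_mono hWW ha) (h3 hb'm)) (h3 ha'm)) hy
    · rw [huy]
      have h2 : a = (a + b') ^ 2 / a' := by
        rw [h1]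
        field_simp
      calc a * y ^ 2 = (a + b') ^ 2 / a' * y ^ 2 := by rw [← h2]
        _ = a' * ((a + b') / a' * y) ^ 2 := by
          field_simp
  by_cases hne : a + b = 0
  · refine hstep (-b) ?_ ?_ ?_
    · have h1 : (((-b : Q2)) : ℝ) = -(b : ℝ) := rfl
      rw [h1]
      exact neg_mem hbm0
    · rw [neg_sq]
      exact hb2 σ
    · intro h1
      apply ha0
      have h2 : (2 : Q2) * a = 0 := by
        calc (2 : Q2) * a = (a + b) + (a + -b) := by ring
          _ = 0 := by rw [hne, h1, add_zero]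
      exact (mul_eq_zero.1 h2).resolve_left two_ne_zero
  · exact hstep b hbm0 (hb2 σ) hne

/-- rational version with a squarefree number -/
theorem squarefree_form {r : ℚ} (hr : 0 < r) : ∃ (n : ℕ) (s : ℚ), Squarefree n ∧ r = n * s ^ 2 := by
  obtain ⟨a, b, hab, ha⟩ := Nat.sq_mul_squarefree (r.num.natAbs * r.den)
  refine ⟨a, (b : ℚ) / r.den, ha, ?_⟩
  have h1 : (r.num.natAbs : ℚ) = r.num := by
    have h2 : (r.num.natAbs : ℤ) = r.num := Int.natAbs_of_nonneg (Rat.num_pos.2 hr).le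
    rw [← Int.cast_natCast, h2]
  have h2 : ((b : ℚ)) ^ 2 * a = r.num * r.den := by
    have h3 : ((b ^ 2 * a : ℕ) : ℚ) = ((r.num.natAbs * r.den : ℕ) : ℚ) := congrArg Nat.cast hab
    rw [Nat.cast_mul, Nat.cast_mul, Nat.cast_pow] at h3
    rw [h3, h1]
  have h3 : (r.den : ℚ) ≠ 0 := by exact_mod_cast r.den_ne_zero
  calc r = r.num / r.den := (Rat.num_div_den r).symm
    _ = (r.num * r.den) / r.den ^ 2 := by field_simp
    _ = ((b : ℚ) ^ 2 * a) / r.den ^ 2 := by rw [h2]
    _ = _ := by ring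

end Pool.Agent.TPU
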