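import Pool.Agent.Work.MP_d956f3_nt.R.Basic

set_option autoImplicit false

/-! # MP_d956f3_nt: the number of unit square classes -/

namespace Pool.Agent.TPU

open NumberField NumberField.Units

variable {K F M : IntermediateField ℚ ℝ}

theorem numberField (F : IntermediateField ℚ ℝ) [FiniteDimensional ℚ F] : NumberField F :=
  NumberField.mk

theorem totallyReal (hF : F ≤ Q2) : IsTotallyReal F := by
  constructor
  intro v
  rw [← InfinitePlace.mk_embedding v, InfinitePlace.isReal_mk_iff]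
  rw [ComplexEmbedding.isReal_iff]
  ext x
  exact emb_real hF _ x

theorem neg_one_ne : (-1 : (𝓞 K)ˣ) ≠ 1 := by
  intro h
  have h1 := congrArg (fun u : (𝓞 K)ˣ => ((((u : 𝓞 K) : K)) : ℝ)) h
  have h2 : ((((-1 : (𝓞 K)ˣ) : 𝓞 K) : K) : ℝ) = -1 := rfl
  have h3 : ((((1 : (𝓞 K)ˣ) : 𝓞 K) : K) : ℝ) = 1 := rfl
  have h4 : ((((-1 : (𝓞 K)ˣ) : 𝓞 K) : K) : ℝ) = ((((1 : (𝓞 K)ˣ) : 𝓞 K) : K) : ℝ) := h1
  rw [h2, h3] at h4
  norm_num at h4

/-- a real root of unity is `1` or `-1` -/
theorem torsion_real [NumberField F] {z : (𝓞 F)ˣ} (hz : z ∈ torsion F) : z = 1 ∨ z = -1 := by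
  have h1 : IsOfFinOrder z := (CommGroup.mem_torsion _).1 hz
  obtain ⟨n, hn, h2⟩ := isOfFinOrder_iff_pow_eq_one.1 h1
  have h3 : ((((z : (𝓞 F)ˣ) : 𝓞 F) : F) : ℝ) ^ n = 1 := by
    have h4 := congrArg (fun u : (𝓞 F)ˣ => ((((u : 𝓞 F) : F)) : ℝ)) h2
    exact h4
  have h4 : |((((z : (𝓞 F)ˣ) : 𝓞 F) : F) : ℝ)| = 1 := by
    have h5 : |((((z : (𝓞 F)ˣ) : 𝓞 F) : F) : ℝ)| ^ n = 1 := by
      rw [← abs_pow, h3, abs_one]
    exact (pow_eq_one_iff_of_nonneg (abs_nonneg _) hn.ne').1 h5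
  rcases (abs_eq zero_le_one).1 h4 with h5 | h5
  · left
    apply Units.ext
    apply RingOfIntegers.ext
    exact Subtype.ext h5
  · right
    apply Units.ext
    apply RingOfIntegers.ext
    exact Subtype.ext h5

/-- the sign -/
noncomputable def tz (a : ZMod 2) : (𝓞 F)ˣ := if a = 0 then 1 else -1

theorem tz_mem [NumberField F] (a : ZMod 2) : (tz a : (𝓞 F)ˣ) ∈ torsion F := by
  unfold tz
  split_ifs
  · exact one_mem _
  · apply (CommGroup.mem_torsion _).2
    exact isOfFinOrder_iff_pow_eq_one.2 ⟨2, two_pos, neg_one_sq⟩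

theorem tz_inj {a b : ZMod 2} (h : (tz a : (𝓞 F)ˣ) = tz b) : a = b := by
  unfold tz at h
  rcases zmod2_cases a with rfl | rfl <;> rcases zmod2_cases b with rfl | rfl
  · rfl
  · rw [if_pos rfl, if_neg (by decide)] at h
    exact absurd h.symm neg_one_ne
  · rw [if_pos rfl, if_neg (by decide)] at h
    exact absurd h neg_one_ne
  · rfl

theorem tz_surj [NumberField F] {z : (𝓞 F)ˣ} (hz : z ∈ torsion F) : ∃ a, z = tz a := by
  rcases torsion_real hz with rfl | rfl
  · exact ⟨0, by rw [tz, if_pos rfl]⟩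
  · exact ⟨1, by rw [tz, if_neg (by decide)]⟩

theorem exists_rep [NumberField F] (x : (𝓞 F)ˣ) : ∃ (a : ZMod 2) (f : Fin (rank F) → ℤ),
    x = tz a * ∏ i, (fundSystem F i) ^ (f i) := by
  obtain ⟨⟨z, f⟩, h, -⟩ := exist_unique_eq_mul_prod F x
  obtain ⟨a, ha⟩ := tz_surj z.2
  refine ⟨a, f, ?_⟩
  rw [← ha]
  exact h

theorem rep_unique [NumberField F] {a b : ZMod 2} {f g : Fin (rank F) → ℤ}
    (h : tz a * ∏ i, (fundSystem F i) ^ (f i) = tz b * ∏ i, (fundSystem F i) ^ (g i)) :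
    a = b ∧ f = g := by
  have h1 := (exist_unique_eq_mul_prod F (tz a * ∏ i, (fundSystem F i) ^ (f i))).unique
    (y₁ := (⟨tz a, tz_mem a⟩, f)) (y₂ := (⟨tz b, tz_mem b⟩, g)) rfl h
  have h2 := congrArg Prod.fst h1
  have h3 := congrArg Prod.snd h1
  exact ⟨tz_inj (congrArg Subtype.val h2), h3⟩

theorem tz_sq (a : ZMod 2) : (tz a : (𝓞 F)ˣ) ^ 2 = 1 := by
  unfold tz
  split_ifs
  · exact one_pow 2
  · exact neg_one_sq

/-- the representatives -/
noncomputable def rp (F : IntermediateField ℚ ℝ) [NumberField F]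
    (x : ZMod 2 × (Fin (rank F) → ZMod 2)) : (𝓞 F)ˣ :=
  tz x.1 * ∏ i, (fundSystem F i) ^ ((x.2 i).val : ℤ)

theorem mem_Sq {x : (𝓞 F)ˣ} : x ∈ Sq F ↔ ∃ v : (𝓞 F)ˣ, v ^ 2 = x := Iff.rfl

theorem card_sq (hF : F ≤ Q2) [FiniteDimensional ℚ F] :
    Nat.card ((𝓞 F)ˣ ⧸ Sq F) = 2 ^ Module.finrank ℚ F := by
  have hNF := numberField F
  have hTR := totallyReal hF
  have hbij : Function.Bijective (fun x => (QuotientGroup.mk (rp F x) : (𝓞 F)ˣ ⧸ Sq F)) := by
    constructor
    · rintro ⟨a, e⟩ ⟨b, e'⟩ h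
      rw [QuotientGroup.eq, mem_Sq] at h
      obtain ⟨v, hv⟩ := h
      obtain ⟨d, f, hf⟩ := exists_rep v
      have h1 : rp F (b, e') = rp F (a, e) * v ^ 2 := by rw [hv, mul_inv_cancel_left]
      have h2 : tz b * ∏ i, (fundSystem F i) ^ ((e' i).val : ℤ) =
          tz a * ∏ i, (fundSystem F i) ^ ((e i).val + 2 * f i : ℤ) := by
        have h3 : rp F (b, e') = tz b * ∏ i, (fundSystem F i) ^ ((e' i).val : ℤ) := rfl
        rw [← h3, h1, hf, mul_pow, tz_sq, one_mul]
        unfold rp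
        rw [mul_assoc, ← Finset.prod_pow, ← Finset.prod_mul_distrib]
        congr 1
        apply Finset.prod_congr rfl
        intro i _
        rw [zpow_add, mul_comm 2 (f i), zpow_mul]
        norm_cast
      obtain ⟨h3, h4⟩ := rep_unique h2
      rw [h3]
      congr 1
      funext i
      have h5 := congrFun h4 i
      have h6 : (((e' i).val : ℤ) : ZMod 2) = (((e i).val + 2 * f i : ℤ) : ZMod 2) :=
        congrArg Int.cast h5
      push_cast at h6
      rw [ZMod.natCast_zmod_val, ZMod.natCast_zmod_val] at h6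
      have h7 : (2 : ZMod 2) = 0 := rfl
      rw [h7, zero_mul, add_zero] at h6
      exact h6.symm
    · intro x
      induction x using QuotientGroup.induction_on with
      | H x =>
        obtain ⟨a, f, hf⟩ := exists_rep x
        refine ⟨(a, fun i => (f i : ZMod 2)), ?_⟩
        change QuotientGroup.mk _ = QuotientGroup.mk _
        rw [QuotientGroup.eq, mem_Sq]
        refine ⟨∏ i, (fundSystem F i) ^ (f i / 2), ?_⟩
        rw [eq_inv_mul_iff_mul_eq, hf]
        unfold rp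
        rw [mul_assoc, ← Finset.prod_pow, ← Finset.prod_mul_distrib]
        congr 1
        apply Finset.prod_congr rfl
        intro i _
        rw [← zpow_natCast, ← zpow_mul, ← zpow_add]
        congr 1
        have h1 : (((f i : ZMod 2)).val : ℤ) = f i % 2 := by
          have := ZMod.val_intCast (n := 2) (f i)
          exact_mod_cast this
        rw [h1]
        have := Int.emod_add_mul_ediv (f i) 2
        push_cast
        linarith
  rw [← Nat.card_eq_of_bijective _ hbij, Nat.card_prod, Nat.card_fun, Nat.card_zmod, Nat.card_fin,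
    ← pow_succ']
  congr 1
  have h1 : Fintype.card (InfinitePlace F) = Module.finrank ℚ F := by
    rw [InfinitePlace.card_eq_nrRealPlaces_add_nrComplexPlaces, IsTotallyReal.finrank F,
      IsTotallyReal.nrComplexPlaces_eq_zero, add_zero]
  unfold rank
  rw [h1]
  have := Module.finrank_pos (R := ℚ) (M := F)
  omega

end Pool.Agent.TPU
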