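import Pool.Agent.Work.MP_d956f3_nt.R.Norm

set_option autoImplicit false

/-! # MP_d956f3_nt: the number of classes of a subfield divides that of a field -/

namespace Pool.Agent.TPU

open NumberField NumberField.Units

variable {K E F M : IntermediateField ℚ ℝ}

/-- units of `𝓞 K` -/
theorem exists_unit' {r : ℝ} (hm : r ∈ K) (h0 : r ≠ 0)
    (hi : IsIntegral ℤ r ∧ IsIntegral ℤ r⁻¹) :
    ∃ u : (𝓞 K)ˣ, (((u : 𝓞 K) : K) : ℝ) = r := by
  have h1 : ∀ x : K, IsIntegral ℤ (x : ℝ) → IsIntegral ℤ x := by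
    intro x hx
    have h3 : (K.val.restrictScalars ℤ) x = (x : ℝ) := rfl
    rw [← h3] at hx
    exact (isIntegral_algHom_iff (K.val.restrictScalars ℤ) K.val.injective).1 hx
  have i1 : IsIntegral ℤ (⟨r, hm⟩ : K) := h1 _ hi.1
  have i2 : IsIntegral ℤ ((⟨r, hm⟩ : K)⁻¹) := h1 _ hi.2
  have hne : (⟨r, hm⟩ : K) ≠ 0 := fun h => h0 (congrArg Subtype.val h)
  let u : (𝓞 K)ˣ := ⟨⟨⟨r, hm⟩, i1⟩, ⟨(⟨r, hm⟩ : K)⁻¹, i2⟩,
    Subtype.ext (mul_inv_cancel₀ hne), Subtype.ext (inv_mul_cancel₀ hne)⟩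
  exact ⟨u, rfl⟩

theorem int_coe (x : 𝓞 K) : IsIntegral ℤ (((x : 𝓞 K) : K) : ℝ) := by
  have h1 : IsIntegral ℤ ((x : 𝓞 K) : K) := x.2
  exact (isIntegral_algHom_iff (K.val.restrictScalars ℤ) K.val.injective).2 h1

theorem int_map {x : Q2} (h : IsIntegral ℤ x) (σ : Gam) : IsIntegral ℤ (σ x) :=
  map_isIntegral_int (σ : Q2 →+* Q2) h

theorem int_Q2 {x : Q2} : IsIntegral ℤ (x : ℝ) ↔ IsIntegral ℤ x :=
  isIntegral_algHom_iff (Q2.val.restrictScalars ℤ) Q2.val.injective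

/-- the element of `Q2` -/
noncomputable def uq (hF : F ≤ Q2) (u : (𝓞 F)ˣ) : Q2 := ⟨(((u : 𝓞 F) : F) : ℝ), hF ((u : 𝓞 F) : F).2⟩

theorem uq_mul (hF : F ≤ Q2) (u v : (𝓞 F)ˣ) : uq hF (u * v) = uq hF u * uq hF v := rfl

theorem uq_one (hF : F ≤ Q2) : uq hF 1 = 1 := rfl

theorem uq_ne (hF : F ≤ Q2) (u : (𝓞 F)ˣ) : uq hF u ≠ 0 := by
  intro h
  have h1 : uq hF u * uq hF u⁻¹ = 1 := by
    rw [← uq_mul, mul_inv_cancel, uq_one]
  rw [h, zero_mul] at h1
  exact zero_ne_one h1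

theorem uq_inv (hF : F ≤ Q2) (u : (𝓞 F)ˣ) : uq hF u⁻¹ = (uq hF u)⁻¹ := by
  have h1 : uq hF u * uq hF u⁻¹ = 1 := by
    rw [← uq_mul, mul_inv_cancel, uq_one]
  exact eq_inv_of_mul_eq_one_right h1

theorem uq_int (hF : F ≤ Q2) (u : (𝓞 F)ˣ) : IsIntegral ℤ (uq hF u) ∧ IsIntegral ℤ (uq hF u)⁻¹ := by
  rw [← uq_inv]
  exact ⟨int_Q2.1 (int_coe _), int_Q2.1 (int_coe _)⟩

theorem uq_mem (hF : F ≤ Q2) (u : (𝓞 F)ˣ) : ((uq hF u : Q2) : ℝ) ∈ F := ((u : 𝓞 F) : F).2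

theorem ev_eq (hF : F ≤ Q2) (σ : Gam) (u : (𝓞 F)ˣ) : ev (res hF σ) u = ((σ (uq hF u) : Q2) : ℝ) :=
  rfl

/-- units from elements of `Q2` -/
theorem exists_uq (hF : F ≤ Q2) {x : Q2} (hx : (x : ℝ) ∈ F) (h0 : x ≠ 0)
    (hi : IsIntegral ℤ x ∧ IsIntegral ℤ x⁻¹) : ∃ u : (𝓞 F)ˣ, uq hF u = x := by
  have h0' : (x : ℝ) ≠ 0 := fun h => h0 (Subtype.ext h)
  obtain ⟨u, hu⟩ := exists_unit' hx h0' ⟨int_Q2.2 hi.1, by
    have := int_Q2.2 hi.2
    simpa using this⟩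
  exact ⟨u, Subtype.ext hu⟩

theorem int_prod' {ι : Type} (s : Finset ι) (f : ι → Q2) (h : ∀ i ∈ s, IsIntegral ℤ (f i)) :
    IsIntegral ℤ (∏ i ∈ s, f i) := IsIntegral.prod _ h

/-- restriction of embeddings -/
noncomputable def rs (h : E ≤ F) (φ : XF F) : XF E := φ.comp (IntermediateField.inclusion h)

theorem rs_res (h : E ≤ F) (hF : F ≤ Q2) (σ : Gam) : rs h (res hF σ) = res (h.trans hF) σ := rfl

section finite

variable [FiniteDimensional ℚ F] [FiniteDimensional ℚ E]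

open Classical in
/-- the push forward of signatures -/
noncomputable def push (h : E ≤ F) : (XF F → ℤˣ) →* (XF E → ℤˣ) where
  toFun f χ := ∏ ψ ∈ Finset.univ.filter (fun ψ => rs h ψ = χ), f ψ
  map_one' := by
    funext χ
    simp
  map_mul' f g := by
    funext χ
    simp [Finset.prod_mul_distrib]

theorem push_surj (h : E ≤ F) (hF : F ≤ Q2) : Function.Surjective (push h) := by
  classical
  have h1 : ∀ χ : XF E, ∃ ψ : XF F, rs h ψ = χ := by
    intro χ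
    obtain ⟨σ, rfl⟩ := exists_ext (h.trans hF) χ
    exact ⟨res hF σ, rs_res h hF σ⟩
  choose t ht using h1
  intro f
  refine ⟨fun ψ => if ψ = t (rs h ψ) then f (rs h ψ) else 1, ?_⟩
  funext χ
  change ∏ ψ ∈ Finset.univ.filter (fun ψ => rs h ψ = χ),
    (if ψ = t (rs h ψ) then f (rs h ψ) else 1) = f χ
  rw [Finset.prod_eq_single (t χ)]
  · rw [ht, if_pos rfl]
  · intro ψ hψ hne
    have h2 := (Finset.mem_filter.1 hψ).2
    rw [h2, if_neg hne]
  · intro hn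
    exact (hn (Finset.mem_filter.2 ⟨Finset.mem_univ _, ht χ⟩)).elim

omit [FiniteDimensional ℚ E] in
theorem push_range (h : E ≤ F) (hF : F ≤ Q2) (u : (𝓞 F)ˣ) :
    push h (sgnHom F u) ∈ (sgnHom E).range := by
  classical
  have hE := h.trans hF
  choose ext hext using exists_ext hF
  set N : Q2 := ∏ φ ∈ Finset.univ.filter (fun φ : XF F => rs h φ = inc hE), ext φ (uq hF u) with hN
  have hσN : ∀ σ : Gam, σ N =
      ∏ ψ ∈ Finset.univ.filter (fun ψ : XF F => rs h ψ = res hE σ), ext ψ (uq hF u) := by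
    intro σ
    rw [hN, map_prod]
    refine Finset.prod_bij (fun φ _ => σ.comp φ) ?_ ?_ ?_ ?_
    · intro φ hφ
      have h1 := (Finset.mem_filter.1 hφ).2
      refine Finset.mem_filter.2 ⟨Finset.mem_univ _, ?_⟩
      apply AlgHom.ext
      intro x
      have h2 := DFunLike.congr_fun h1 x
      exact congrArg σ h2
    · intro φ _ ψ _ h1
      apply AlgHom.ext
      intro x
      have h2 : σ (φ x) = σ (ψ x) := DFunLike.congr_fun h1 x
      exact σ.toRingHom.injective h2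
    · intro ψ hψ
      have h1 := (Finset.mem_filter.1 hψ).2
      refine ⟨σ.comp ψ, Finset.mem_filter.2 ⟨Finset.mem_univ _, ?_⟩, ?_⟩
      · apply AlgHom.ext
        intro x
        have h2 := DFunLike.congr_fun h1 x
        have h3 := congrArg σ h2
        have h4 : σ (σ ⟨x, hE x.2⟩) = (⟨x, hE x.2⟩ : Q2) := invol σ _
        exact h3.trans h4
      · apply AlgHom.ext
        intro x
        exact invol σ _
    · intro φ _
      have h1 : σ (ext φ (uq hF u)) = σ (φ ((u : 𝓞 F) : F)) := by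
        congr 1
        exact DFunLike.congr_fun (hext φ) ((u : 𝓞 F) : F)
      have h2 : ext (σ.comp φ) (uq hF u) = (σ.comp φ) ((u : 𝓞 F) : F) :=
        DFunLike.congr_fun (hext (σ.comp φ)) ((u : 𝓞 F) : F)
      rw [h1, h2]
      rfl
  have hNm : (N : ℝ) ∈ E := by
    apply mem_of_fixed hE
    intro σ hσ
    have h1 : res hE σ = inc hE := by
      apply AlgHom.ext
      intro x
      exact hσ _ x.2
    rw [hσN, h1]
  have hext0 : ∀ φ : XF F, ext φ (uq hF u) ≠ 0 := by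
    intro φ
    rw [Ne, map_eq_zero]
    exact uq_ne hF u
  have hN0 : N ≠ 0 := Finset.prod_ne_zero_iff.2 (fun φ _ => hext0 φ)
  obtain ⟨v, hv⟩ := exists_uq hE hNm hN0 ⟨by
    rw [hN]
    exact int_prod' _ _ (fun φ _ => int_map (uq_int hF u).1 _), by
    rw [hN, ← Finset.prod_inv_distrib]
    refine int_prod' _ _ (fun φ _ => ?_)
    rw [← map_inv₀]
    exact int_map (uq_int hF u).2 _⟩
  refine ⟨v, ?_⟩
  funext χ
  obtain ⟨σ, rfl⟩ := exists_ext hE χ
  rw [sgnHom_apply, ev_eq, hv, hσN]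
  have h1 : ((∏ ψ ∈ Finset.univ.filter (fun ψ : XF F => rs h ψ = res hE σ),
      ext ψ (uq hF u) : Q2) : ℝ) = ∏ ψ ∈ Finset.univ.filter (fun ψ : XF F => rs h ψ = res hE σ),
      ((ext ψ (uq hF u) : Q2) : ℝ) := map_prod Q2.val _ _
  rw [h1, sgu_prod]
  · apply Finset.prod_congr rfl
    intro ψ _
    rw [sgnHom_apply]
    congr 1
    conv_rhs => rw [← hext ψ]
    rw [ev_eq]
  · intro ψ _ h2
    exact hext0 ψ (Subtype.ext h2)

theorem index_dvd (h : E ≤ F) (hF : F ≤ Q2) :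
    (sgnHom E).range.index ∣ (sgnHom F).range.index := by
  have h1 : ((sgnHom F).range.map (push h)) ≤ (sgnHom E).range := by
    rintro _ ⟨_, ⟨u, rfl⟩, rfl⟩
    exact push_range h hF u
  exact (Subgroup.index_dvd_of_le h1).trans (Subgroup.index_map_dvd _ (push_surj h hF))

theorem card_T_dvd (h : E ≤ F) (hF : F ≤ Q2) :
    Nat.card (TP E ⧸ (Sq E).subgroupOf (TP E)) ∣ Nat.card (TP F ⧸ (Sq F).subgroupOf (TP F)) := by
  rw [card_T hF, card_T (h.trans hF)]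
  exact index_dvd h hF

end finite

end Pool.Agent.TPU
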