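import Mathlib

set_option autoImplicit false

/-! # MP_d956f3_nt: Legendre's theorem on ternary quadratic forms (case needed) -/

namespace Pool.Agent.TPU.Leg

theorem sqrt_bound (n : ℕ) : n < (Nat.sqrt n + 1) ^ 2 := Nat.lt_succ_sqrt' n

theorem count {A B C : ℕ} (hA : 0 < A) (hB : 0 < B) (hC : 0 < C) :
    A * B * C < (Nat.sqrt (B * C) + 1) * (Nat.sqrt (C * A) + 1) * (Nat.sqrt (A * B) + 1) := by
  by_contra h
  push Not at h
  have h1 := sqrt_bound (B * C)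
  have h2 := sqrt_bound (C * A)
  have h3 := sqrt_bound (A * B)
  set a := Nat.sqrt (B * C) + 1
  set b := Nat.sqrt (C * A) + 1
  set c := Nat.sqrt (A * B) + 1
  have h4 : (a * b * c) ^ 2 ≤ (A * B * C) ^ 2 := Nat.pow_le_pow_left h 2
  have h5 : (A * B * C) ^ 2 = (B * C) * (C * A) * (A * B) := by ring
  have h6 : (a * b * c) ^ 2 = a ^ 2 * b ^ 2 * c ^ 2 := by ring
  rw [h5, h6] at h4
  have h7 : (B * C) * (C * A) < a ^ 2 * b ^ 2 := Nat.mul_lt_mul_of_lt_of_le h1 h2.le (by positivity)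
  have h8 : (B * C) * (C * A) * (A * B) < a ^ 2 * b ^ 2 * c ^ 2 :=
    Nat.mul_lt_mul_of_lt_of_le h7 h3.le (by positivity)
  omega

theorem sq_lt {n : ℕ} (hn : ¬ IsSquare n) {x y : ℕ} (hx : x < Nat.sqrt n + 1)
    (hy : y < Nat.sqrt n + 1) : ((x : ℤ) - y) ^ 2 < n := by
  have h1 : |(x : ℤ) - y| ≤ (Nat.sqrt n : ℤ) := by
    rw [abs_le]
    constructor <;> omega
  have h2 : ((x : ℤ) - y) ^ 2 ≤ (Nat.sqrt n : ℤ) ^ 2 := by
    rw [← sq_abs]
    exact pow_le_pow_left₀ (abs_nonneg _) h1 2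
  have h3 : Nat.sqrt n ^ 2 ≤ n := Nat.sqrt_le' n
  have h4 : Nat.sqrt n ^ 2 ≠ n := fun h => hn ⟨Nat.sqrt n, by rw [← sq]; exact h.symm⟩
  have h5 : Nat.sqrt n ^ 2 < n := lt_of_le_of_ne h3 h4
  have h6 : ((Nat.sqrt n : ℤ)) ^ 2 < n := by exact_mod_cast h5
  exact lt_of_le_of_lt h2 h6

theorem legendre {A B C : ℕ} (hA : 0 < A) (hB : 0 < B) (hC : 0 < C) (hAB : Nat.Coprime A B)
    (hBC : Nat.Coprime B C) (hCA : Nat.Coprime C A) (nBC : ¬ IsSquare (B * C))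
    (nCA : ¬ IsSquare (C * A)) (nAB : ¬ IsSquare (A * B)) (k1 k2 k3 : ℤ)
    (h1 : (A : ℤ) ∣ B * k1 ^ 2 - C) (h2 : (B : ℤ) ∣ A * k2 ^ 2 - C)
    (h3 : (C : ℤ) ∣ A * k3 ^ 2 + B) :
    ∃ x y z : ℤ, (x ≠ 0 ∨ y ≠ 0 ∨ z ≠ 0) ∧ A * x ^ 2 + B * y ^ 2 = C * z ^ 2 := by
  classical
  have : NeZero A := ⟨hA.ne'⟩
  have : NeZero B := ⟨hB.ne'⟩
  have : NeZero C := ⟨hC.ne'⟩
  let s : Finset (ℕ × ℕ × ℕ) := (Finset.range (Nat.sqrt (B * C) + 1)) ×ˢ
    ((Finset.range (Nat.sqrt (C * A) + 1)) ×ˢ (Finset.range (Nat.sqrt (A * B) + 1)))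
  let f : ℕ × ℕ × ℕ → ZMod A × ZMod B × ZMod C := fun p =>
    (((p.2.1 : ℤ) - k1 * p.2.2 : ℤ), ((p.1 : ℤ) - k2 * p.2.2 : ℤ), ((p.1 : ℤ) - k3 * p.2.1 : ℤ))
  have hcard : (Finset.univ : Finset (ZMod A × ZMod B × ZMod C)).card < s.card := by
    rw [Finset.card_univ, Fintype.card_prod, Fintype.card_prod, ZMod.card, ZMod.card, ZMod.card,
      Finset.card_product, Finset.card_product, Finset.card_range, Finset.card_range,
      Finset.card_range, ← mul_assoc, ← mul_assoc]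
    exact count hA hB hC
  obtain ⟨p, hp, p', hp', hne, heq⟩ :=
    Finset.exists_ne_map_eq_of_card_lt_of_maps_to hcard (f := f) (fun _ _ => Finset.mem_univ _)
  obtain ⟨X, Y, Z⟩ := p
  obtain ⟨X', Y', Z'⟩ := p'
  have hs := Finset.mem_product.1 hp
  have hs' := Finset.mem_product.1 hp'
  have hX := Finset.mem_range.1 hs.1
  have hX' := Finset.mem_range.1 hs'.1
  have hY := Finset.mem_range.1 (Finset.mem_product.1 hs.2).1
  have hY' := Finset.mem_range.1 (Finset.mem_product.1 hs'.2).1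
  have hZ := Finset.mem_range.1 (Finset.mem_product.1 hs.2).2
  have hZ' := Finset.mem_range.1 (Finset.mem_product.1 hs'.2).2
  set x : ℤ := (X : ℤ) - X' with hx
  set y : ℤ := (Y : ℤ) - Y' with hy
  set z : ℤ := (Z : ℤ) - Z' with hz
  have e1 : (A : ℤ) ∣ y - k1 * z := by
    have h := congrArg Prod.fst heq
    have h' : (((Y : ℤ) - k1 * Z : ℤ) : ZMod A) = (((Y' : ℤ) - k1 * Z' : ℤ) : ZMod A) := h
    rw [ZMod.intCast_eq_intCast_iff_dvd_sub] at h'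
    have h'' := dvd_neg.2 h'
    have : y - k1 * z = -((Y' : ℤ) - k1 * Z' - ((Y : ℤ) - k1 * Z)) := by
      rw [hy, hz]
      ring
    rw [this]
    exact h''
  have e2 : (B : ℤ) ∣ x - k2 * z := by
    have h := congrArg (fun t => t.2.1) heq
    have h' : (((X : ℤ) - k2 * Z : ℤ) : ZMod B) = (((X' : ℤ) - k2 * Z' : ℤ) : ZMod B) := h
    rw [ZMod.intCast_eq_intCast_iff_dvd_sub] at h'
    have h'' := dvd_neg.2 h'
    have : x - k2 * z = -((X' : ℤ) - k2 * Z' - ((X : ℤ) - k2 * Z)) := by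
      rw [hx, hz]
      ring
    rw [this]
    exact h''
  have e3 : (C : ℤ) ∣ x - k3 * y := by
    have h := congrArg (fun t => t.2.2) heq
    have h' : (((X : ℤ) - k3 * Y : ℤ) : ZMod C) = (((X' : ℤ) - k3 * Y' : ℤ) : ZMod C) := h
    rw [ZMod.intCast_eq_intCast_iff_dvd_sub] at h'
    have h'' := dvd_neg.2 h'
    have : x - k3 * y = -((X' : ℤ) - k3 * Y' - ((X : ℤ) - k3 * Y)) := by
      rw [hx, hy]
      ring
    rw [this]
    exact h''
  have d1 : (A : ℤ) ∣ A * x ^ 2 + B * y ^ 2 - C * z ^ 2 := by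
    obtain ⟨t, ht⟩ := e1
    obtain ⟨t', ht'⟩ := h1
    have hyz : y = k1 * z + A * t := by linarith
    refine ⟨x ^ 2 + t' * z ^ 2 + B * (2 * k1 * z * t + A * t ^ 2), ?_⟩
    have h4 : (B : ℤ) * k1 ^ 2 = C + A * t' := by linarith
    rw [hyz]
    calc (A : ℤ) * x ^ 2 + B * (k1 * z + A * t) ^ 2 - C * z ^ 2
        = A * x ^ 2 + (B * k1 ^ 2) * z ^ 2 + B * (2 * k1 * z * (A * t) + (A * t) ^ 2) - C * z ^ 2 := by
          ring
      _ = _ := by
        rw [h4]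
        ring
  have d2 : (B : ℤ) ∣ A * x ^ 2 + B * y ^ 2 - C * z ^ 2 := by
    obtain ⟨t, ht⟩ := e2
    obtain ⟨t', ht'⟩ := h2
    have hxz : x = k2 * z + B * t := by linarith
    refine ⟨y ^ 2 + t' * z ^ 2 + A * (2 * k2 * z * t + B * t ^ 2), ?_⟩
    have h4 : (A : ℤ) * k2 ^ 2 = C + B * t' := by linarith
    rw [hxz]
    calc (A : ℤ) * (k2 * z + B * t) ^ 2 + B * y ^ 2 - C * z ^ 2
        = (A * k2 ^ 2) * z ^ 2 + A * (2 * k2 * z * (B * t) + (B * t) ^ 2) + B * y ^ 2 - C * z ^ 2 := by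
          ring
      _ = _ := by
        rw [h4]
        ring
  have d3 : (C : ℤ) ∣ A * x ^ 2 + B * y ^ 2 - C * z ^ 2 := by
    obtain ⟨t, ht⟩ := e3
    obtain ⟨t', ht'⟩ := h3
    have hxy : x = k3 * y + C * t := by linarith
    refine ⟨t' * y ^ 2 + A * (2 * k3 * y * t + C * t ^ 2) - z ^ 2, ?_⟩
    have h4 : (A : ℤ) * k3 ^ 2 = C * t' - B := by linarith
    rw [hxy]
    calc (A : ℤ) * (k3 * y + C * t) ^ 2 + B * y ^ 2 - C * z ^ 2
        = (A * k3 ^ 2) * y ^ 2 + A * (2 * k3 * y * (C * t) + (C * t) ^ 2) + B * y ^ 2 - C * z ^ 2 := by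
          ring
      _ = _ := by
        rw [h4]
        ring
  have cAB : IsCoprime (A : ℤ) (B : ℤ) := Nat.isCoprime_iff_coprime.2 hAB
  have cBC : IsCoprime (B : ℤ) (C : ℤ) := Nat.isCoprime_iff_coprime.2 hBC
  have cCA : IsCoprime (C : ℤ) (A : ℤ) := Nat.isCoprime_iff_coprime.2 hCA
  have d4 : (A : ℤ) * B * C ∣ A * x ^ 2 + B * y ^ 2 - C * z ^ 2 :=
    (IsCoprime.mul_left cCA.symm cBC).mul_dvd (cAB.mul_dvd d1 d2) d3
  have bx : x ^ 2 < ((B * C : ℕ) : ℤ) := sq_lt nBC hX hX'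
  have by' : y ^ 2 < ((C * A : ℕ) : ℤ) := sq_lt nCA hY hY'
  have bz : z ^ 2 < ((A * B : ℕ) : ℤ) := sq_lt nAB hZ hZ'
  push_cast at bx by' bz
  have pA : (0 : ℤ) < A := by exact_mod_cast hA
  have pB : (0 : ℤ) < B := by exact_mod_cast hB
  have pC : (0 : ℤ) < C := by exact_mod_cast hC
  have hnz : x ≠ 0 ∨ y ≠ 0 ∨ z ≠ 0 := by
    by_contra hcon
    push Not at hcon
    obtain ⟨c1, c2, c3⟩ := hcon
    apply hne
    have g1 : X = X' := by omega
    have g2 : Y = Y' := by omega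
    have g3 : Z = Z' := by omega
    rw [g1, g2, g3]
  obtain ⟨t, ht⟩ := d4
  have pABC : (0 : ℤ) < (A : ℤ) * B * C := by positivity
  have u1 : (A : ℤ) * x ^ 2 < A * B * C := by
    calc (A : ℤ) * x ^ 2 < A * (B * C) := mul_lt_mul_of_pos_left bx pA
      _ = _ := by ring
  have u2 : (B : ℤ) * y ^ 2 < A * B * C := by
    calc (B : ℤ) * y ^ 2 < B * (C * A) := mul_lt_mul_of_pos_left by' pB
      _ = _ := by ring
  have u3 : (C : ℤ) * z ^ 2 < A * B * C := by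
    calc (C : ℤ) * z ^ 2 < C * (A * B) := mul_lt_mul_of_pos_left bz pC
      _ = _ := by ring
  have v1 : 0 ≤ (A : ℤ) * x ^ 2 := by positivity
  have v2 : 0 ≤ (B : ℤ) * y ^ 2 := by positivity
  have v3 : 0 ≤ (C : ℤ) * z ^ 2 := by positivity
  have t1 : -1 < t := by
    by_contra hcon
    have : t ≤ -1 := by omega
    have : (A : ℤ) * B * C * t ≤ A * B * C * (-1) := mul_le_mul_of_nonneg_left this pABC.le
    linarith
  have t2 : t < 2 := by
    by_contra hcon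
    have : 2 ≤ t := by omega
    have : (A : ℤ) * B * C * 2 ≤ A * B * C * t := mul_le_mul_of_nonneg_left this pABC.le
    linarith
  have t3 : t = 0 ∨ t = 1 := by omega
  rcases t3 with rfl | rfl
  · exact ⟨x, y, z, hnz, by linarith⟩
  · refine ⟨x * z + B * y, y * z - A * x, z ^ 2 + A * B, Or.inr (Or.inr ?_), ?_⟩
    · positivity
    · have h5 : (A : ℤ) * x ^ 2 + B * y ^ 2 - C * z ^ 2 - A * B * C = 0 := by linarith
      have h6 : (A : ℤ) * (x * z + B * y) ^ 2 + B * (y * z - A * x) ^ 2 - C * (z ^ 2 + A * B) ^ 2 =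
          (z ^ 2 + A * B) * (A * x ^ 2 + B * y ^ 2 - C * z ^ 2 - A * B * C) := by ring
      rw [h5, mul_zero] at h6
      linarith

/-- a solution with no common factor -/
theorem primitive {A B C : ℕ} (h : ∃ x y z : ℤ, (x ≠ 0 ∨ y ≠ 0 ∨ z ≠ 0) ∧
    A * x ^ 2 + B * y ^ 2 = C * z ^ 2) :
    ∃ x y z : ℤ, (∀ p : ℕ, p.Prime → (p : ℤ) ∣ x → (p : ℤ) ∣ y → (p : ℤ) ∣ z → False) ∧
      A * x ^ 2 + B * y ^ 2 = C * z ^ 2 := by
  obtain ⟨x, y, z, hne, h⟩ := h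
  set g : ℤ := (Int.gcd x (Int.gcd y z : ℤ) : ℤ) with hg
  have hg0 : g ≠ 0 := by
    intro h0
    rw [hg] at h0
    have h1 : Int.gcd x (Int.gcd y z : ℤ) = 0 := by exact_mod_cast h0
    rw [Int.gcd_eq_zero_iff] at h1
    obtain ⟨h2, h3⟩ := h1
    have h4 : Int.gcd y z = 0 := by exact_mod_cast h3
    rw [Int.gcd_eq_zero_iff] at h4
    rcases hne with h5 | h5 | h5
    · exact h5 h2
    · exact h5 h4.1
    · exact h5 h4.2
  have gx : g ∣ x := Int.gcd_dvd_left ..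
  have gyz : g ∣ (Int.gcd y z : ℤ) := Int.gcd_dvd_right ..
  have gy : g ∣ y := gyz.trans (Int.gcd_dvd_left ..)
  have gz : g ∣ z := gyz.trans (Int.gcd_dvd_right ..)
  obtain ⟨x', hx'⟩ := gx
  obtain ⟨y', hy'⟩ := gy
  obtain ⟨z', hz'⟩ := gz
  refine ⟨x', y', z', ?_, ?_⟩
  · intro p hp h1 h2 h3
    have h4 : g * p ∣ x := by
      rw [hx']
      exact mul_dvd_mul_left _ h1
    have h5 : g * p ∣ y := by
      rw [hy']
      exact mul_dvd_mul_left _ h2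
    have h6 : g * p ∣ z := by
      rw [hz']
      exact mul_dvd_mul_left _ h3
    have h7 : g * p ∣ g := by
      have h8 : g * p ∣ (Int.gcd y z : ℤ) := Int.dvd_coe_gcd h5 h6
      exact Int.dvd_coe_gcd h4 h8
    have h8 : (p : ℤ) ∣ 1 := by
      have : g * p ∣ g * 1 := by rwa [mul_one]
      exact (mul_dvd_mul_iff_left hg0).1 this
    have h9 : p ∣ 1 := by exact_mod_cast h8
    exact hp.one_lt.ne' (Nat.dvd_one.1 h9)
  · have h1 : g ^ 2 * (A * x' ^ 2 + B * y' ^ 2) = g ^ 2 * (C * z' ^ 2) := by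
      rw [hx', hy', hz'] at h
      linarith
    exact mul_left_cancel₀ (pow_ne_zero 2 hg0) h1

end Pool.Agent.TPU.Leg
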