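import Pool.Agent.Work.MP_d956f3_nt.R.Down

set_option autoImplicit false

/-! # MP_d956f3_nt: coordinates and the dictionary between subfields and square classes -/

namespace Pool.Agent.TPU

open NumberField NumberField.Units

variable {K E F M : IntermediateField ℚ ℝ}

theorem li : LinearIndependent ℚ (fun n : SF => rt (n : ℕ)) := by
  rw [linearIndependent_iff']
  intro s g h n hn
  apply indep s g _ n hn
  rw [← h]
  apply Finset.sum_congr rfl
  intro m _
  rw [Algebra.smul_def]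
  rfl

theorem mem_span' (x : Q2) : x ∈ Submodule.span ℚ (Set.range fun n : SF => rt (n : ℕ)) := by
  have h1 := mem_span x.2
  have h2 : Submodule.map Q2.val.toLinearMap
      (Submodule.span ℚ (Set.range fun n : SF => rt (n : ℕ))) =
      Submodule.span ℚ (Set.range fun n : SF => √((n : ℕ) : ℝ)) := by
    rw [Submodule.map_span]
    congr 1
    ext y
    constructor
    · rintro ⟨_, ⟨n, rfl⟩, rfl⟩
      exact ⟨n, rfl⟩
    · rintro ⟨n, rfl⟩
      exact ⟨_, ⟨n, rfl⟩, rfl⟩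
  rw [← h2] at h1
  obtain ⟨y, hy, hyx⟩ := h1
  have : y = x := Subtype.ext hyx
  rw [← this]
  exact hy

/-- the basis of the roots -/
noncomputable def bas : Module.Basis SF ℚ Q2 := Module.Basis.mk li (fun x _ => mem_span' x)

theorem bas_apply (n : SF) : bas n = rt (n : ℕ) := Module.Basis.mk_apply _ _ _

/-- the rational sign -/
noncomputable def sq (a : ZMod 2) : ℚ := if a = 0 then 1 else -1

theorem sq_smul (a : ZMod 2) (x : Q2) : sq a • x = sg a * x := by
  unfold sq sg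
  rcases zmod2_cases a with rfl | rfl
  · rw [if_pos rfl, if_pos rfl, one_smul, one_mul]
  · rw [if_neg one_ne_zero, if_neg one_ne_zero, neg_smul, one_smul, neg_one_mul]

theorem sq_inj {a b : ZMod 2} (h : sq a = sq b) : a = b := by
  unfold sq at h
  rcases zmod2_cases a with rfl | rfl <;> rcases zmod2_cases b with rfl | rfl
  · rfl
  · rw [if_pos rfl, if_neg one_ne_zero] at h
    norm_num at h
  · rw [if_pos rfl, if_neg one_ne_zero] at h
    norm_num at h
  · rfl

/-- coordinates of the image -/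
theorem repr_map (σ : Gam) (x : Q2) (n : SF) :
    bas.repr (σ x) n = sq (ch (n : ℕ) σ) * bas.repr x n := by
  have h1 : (bas.coord n).comp σ.toLinearMap = sq (ch (n : ℕ) σ) • bas.coord n := by
    apply bas.ext
    intro m
    rw [LinearMap.comp_apply, LinearMap.smul_apply, AlgHom.toLinearMap_apply, bas_apply, ch_spec,
      ← sq_smul, map_smul, ← bas_apply, Module.Basis.coord_apply, Module.Basis.repr_self]
    by_cases h : m = n
    · rw [h]
    · rw [Finsupp.single_apply, if_neg h, smul_zero, smul_zero]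
  have h2 := LinearMap.congr_fun h1 x
  exact h2

theorem repr_coe (K : IntermediateField ℚ ℝ) (hK : K ≤ Q2) (x : Q2) :
    (x : ℝ) ∈ K ↔ ∀ n ∈ (bas.repr x).support, √((n : ℕ) : ℝ) ∈ K := by
  constructor
  · intro hx
    have h1 := gen hK hx
    have h2 : x ∈ Submodule.span ℚ (bas '' {n : SF | √((n : ℕ) : ℝ) ∈ K}) := by
      have h3 : Submodule.map Q2.val.toLinearMap
          (Submodule.span ℚ (bas '' {n : SF | √((n : ℕ) : ℝ) ∈ K})) =
          Submodule.span ℚ {y : ℝ | ∃ n : ℕ, Squarefree n ∧ √(n : ℝ) ∈ K ∧ y = √(n : ℝ)} := by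
        rw [Submodule.map_span]
        congr 1
        ext y
        constructor
        · rintro ⟨_, ⟨n, hn, rfl⟩, rfl⟩
          rw [bas_apply]
          exact ⟨n, n.2, hn, rfl⟩
        · rintro ⟨n, hn, hn', rfl⟩
          exact ⟨_, ⟨⟨n, hn⟩, hn', rfl⟩, by rw [bas_apply]; rfl⟩
      rw [← h3] at h1
      obtain ⟨y, hy, hyx⟩ := h1
      have : y = x := Subtype.ext hyx
      rw [← this]
      exact hy
    intro n hn
    exact bas.mem_span_image.1 h2 hn
  · intro h
    have h1 : x = ∑ n ∈ (bas.repr x).support, bas.repr x n • rt (n : ℕ) := by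
      conv_lhs => rw [← bas.linearCombination_repr x]
      rw [Finsupp.linearCombination_apply, Finsupp.sum]
      apply Finset.sum_congr rfl
      intro n _
      rw [bas_apply]
    rw [h1]
    have h2 : ((∑ n ∈ (bas.repr x).support, bas.repr x n • rt (n : ℕ) : Q2) : ℝ) =
        ∑ n ∈ (bas.repr x).support, bas.repr x n • √((n : ℕ) : ℝ) := map_sum Q2.val _ _
    rw [h2]
    exact sum_mem fun n hn => K.smul_mem (h n hn)

/-- an element with square in `M` -/
theorem sqrt_form (hM : M ≤ Q2) (hK : K ≤ Q2) (v : Q2) (hv : v ≠ 0) (hvK : (v : ℝ) ∈ K)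
    (h : ((v * v : Q2) : ℝ) ∈ M) :
    ∃ n : SF, √((n : ℕ) : ℝ) ∈ K ∧ ∃ m : Q2, (m : ℝ) ∈ M ∧ v = rt (n : ℕ) * m := by
  have h1 : (bas.repr v).support.Nonempty := by
    rw [Finsupp.support_nonempty_iff]
    intro h2
    exact hv ((LinearEquiv.map_eq_zero_iff bas.repr).1 h2)
  obtain ⟨n, hn⟩ := h1
  refine ⟨n, (repr_coe K hK v).1 hvK n hn, v * rt (n : ℕ) * ((n : ℕ) : Q2)⁻¹, ?_, ?_⟩
  · apply mem_of_fixed hM
    intro σ hσ
    have h2 : σ v * σ v = v * v := by
      rw [← map_mul]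
      exact hσ _ h
    have h3 : bas.repr v n ≠ 0 := Finsupp.mem_support_iff.1 hn
    have h4 : σ v = sg (ch (n : ℕ) σ) * v := by
      have h5 := repr_map σ v n
      rcases mul_self_eq_mul_self_iff.1 h2 with h6 | h6
      · rw [h6] at h5
        have h7 : sq (ch (n : ℕ) σ) = sq 0 := by
          have h8 : (1 : ℚ) * bas.repr v n = sq (ch (n : ℕ) σ) * bas.repr v n := by
            rw [one_mul]
            exact h5
          rw [← mul_right_cancel₀ h3 h8]
          rfl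
        rw [sq_inj h7, sg_zero, one_mul, h6]
      · rw [h6] at h5
        have h7 : sq (ch (n : ℕ) σ) = sq 1 := by
          have h8 : (-1 : ℚ) * bas.repr v n = sq (ch (n : ℕ) σ) * bas.repr v n := by
            rw [← h5, map_neg]
            simp
          rw [← mul_right_cancel₀ h3 h8]
          rfl
        rw [sq_inj h7, sg_one, neg_one_mul, h6]
    rw [map_mul, map_mul, h4, ch_spec, map_inv₀, map_natCast]
    have h5 := sg_mul_self (ch (n : ℕ) σ)
    calc sg (ch (n : ℕ) σ) * v * (sg (ch (n : ℕ) σ) * rt (n : ℕ)) * ((n : ℕ) : Q2)⁻¹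
        = (sg (ch (n : ℕ) σ) * sg (ch (n : ℕ) σ)) * (v * rt (n : ℕ) * ((n : ℕ) : Q2)⁻¹) := by ring
      _ = _ := by rw [h5, one_mul]
  · have h2 := rt_mul_self (n : ℕ)
    have h3 : ((n : ℕ) : Q2) ≠ 0 := by exact_mod_cast n.2.ne_zero
    calc v = v * (((n : ℕ) : Q2) * ((n : ℕ) : Q2)⁻¹) := by rw [mul_inv_cancel₀ h3, mul_one]
      _ = _ := by
        rw [← h2]
        ring

/-- The field of a set of square classes. -/
noncomputable def EW (W : Submodule (ZMod 2) SC) : IntermediateField ℚ ℝ :=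
  IntermediateField.adjoin ℚ {x : ℝ | ∃ n : ℕ, n ≠ 0 ∧ sc n ∈ W ∧ x = √(n : ℝ)}

theorem EW_le (W : Submodule (ZMod 2) SC) : EW W ≤ Q2 := by
  unfold EW
  rw [IntermediateField.adjoin_le_iff]
  rintro _ ⟨n, _, _, rfl⟩
  exact sqrt_mem n

theorem EW_mono {W W' : Submodule (ZMod 2) SC} (h : W ≤ W') : EW W ≤ EW W' := by
  unfold EW
  apply IntermediateField.adjoin.mono
  rintro _ ⟨n, h1, h2, rfl⟩
  exact ⟨n, h1, h h2, rfl⟩

theorem EW_span (W : Submodule (ZMod 2) SC) {x : Q2} (hx : (x : ℝ) ∈ EW W) :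
    x ∈ Submodule.span ℚ (bas '' {n : SF | sc (n : ℕ) ∈ W}) := by
  have h1 : (x : ℝ) ∈ Algebra.adjoin ℚ {x : ℝ | ∃ n : ℕ, n ≠ 0 ∧ sc n ∈ W ∧ x = √(n : ℝ)} := by
    rw [← IntermediateField.adjoin_toSubalgebra_of_isAlgebraic]
    · exact hx
    · rintro _ ⟨n, _, _, rfl⟩
      exact (isIntegral_sqrt n).isAlgebraic
  have h2 : (x : ℝ) ∈ Submodule.span ℚ
      (Submonoid.closure {x : ℝ | ∃ n : ℕ, n ≠ 0 ∧ sc n ∈ W ∧ x = √(n : ℝ)} : Set ℝ) := by
    rw [← Algebra.adjoin_eq_span]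
    exact h1
  have h3 : Submodule.span ℚ
      (Submonoid.closure {x : ℝ | ∃ n : ℕ, n ≠ 0 ∧ sc n ∈ W ∧ x = √(n : ℝ)} : Set ℝ) ≤
      Submodule.map Q2.val.toLinearMap
        (Submodule.span ℚ (bas '' {n : SF | sc (n : ℕ) ∈ W})) := by
    rw [Submodule.span_le]
    intro y hy
    have h3 : ∃ n : ℕ, n ≠ 0 ∧ sc n ∈ W ∧ y = √(n : ℝ) := by
      have hy' : y ∈ Submonoid.closure {x : ℝ | ∃ n : ℕ, n ≠ 0 ∧ sc n ∈ W ∧ x = √(n : ℝ)} := hy
      refine Submonoid.closure_induction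
        (motive := fun y _ => ∃ n : ℕ, n ≠ 0 ∧ sc n ∈ W ∧ y = √(n : ℝ)) ?_ ?_ ?_ hy'
      · exact fun _ h => h
      · exact ⟨1, one_ne_zero, by rw [sc_one]; exact W.zero_mem, by simp⟩
      · rintro _ _ _ _ ⟨m, hm, hm', rfl⟩ ⟨n, hn, hn', rfl⟩
        exact ⟨m * n, mul_ne_zero hm hn, by rw [sc_mul hm hn]; exact W.add_mem hm' hn',
          by rw [Nat.cast_mul, Real.sqrt_mul (Nat.cast_nonneg m)]⟩
    obtain ⟨n, hn0, hn, rfl⟩ := h3
    obtain ⟨a, b, hab, ha⟩ := Nat.sq_mul_squarefree n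
    have hb0 : b ≠ 0 := by
      rintro rfl
      apply hn0
      rw [← hab]
      ring
    have ha' : sc a = sc n := by
      rw [← hab, sc_mul (pow_ne_zero 2 hb0) ha.ne_zero, _root_.sq, sc_mul_self hb0, zero_add]
    refine ⟨(b : ℚ) • bas ⟨a, ha⟩, ?_, ?_⟩
    · apply Submodule.smul_mem
      apply Submodule.subset_span
      refine ⟨⟨a, ha⟩, ?_, rfl⟩
      change sc a ∈ W
      rw [ha']
      exact hn
    · rw [bas_apply]
      change (b : ℚ) • √(a : ℝ) = √(n : ℝ)
      rw [← hab, Nat.cast_mul, Nat.cast_pow, Real.sqrt_mul (by positivity),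
        Real.sqrt_sq (Nat.cast_nonneg b), Rat.smul_def]
      simp
  obtain ⟨y, hy, hyx⟩ := h3 h2
  have : y = x := Subtype.ext hyx
  rw [← this]
  exact hy

theorem sqrt_mem_EW (W : Submodule (ZMod 2) SC) {n : ℕ} (hn : n ≠ 0) :
    √(n : ℝ) ∈ EW W ↔ sc n ∈ W := by
  constructor
  · intro h
    obtain ⟨a, b, hab, ha⟩ := Nat.sq_mul_squarefree n
    have hb0 : b ≠ 0 := by
      rintro rfl
      apply hn
      rw [← hab]
      ring
    have ha' : sc a = sc n := by
      rw [← hab, sc_mul (pow_ne_zero 2 hb0) ha.ne_zero, _root_.sq, sc_mul_self hb0, zero_add]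
    have h1 : √(a : ℝ) ∈ EW W := sqrt_mem_of_sc ha.ne_zero hn ha' h
    have h2 : rt a ∈ Submodule.span ℚ (bas '' {n : SF | sc (n : ℕ) ∈ W}) :=
      EW_span W (x := rt a) h1
    have h3 := bas.mem_span_image.1 h2
    have h4 : bas.repr (rt a) = Finsupp.single (⟨a, ha⟩ : SF) 1 := by
      have : rt a = bas ⟨a, ha⟩ := by rw [bas_apply]
      rw [this, Module.Basis.repr_self]
    have h5 : (⟨a, ha⟩ : SF) ∈ (bas.repr (rt a)).support := by
      rw [h4, Finsupp.mem_support_iff, Finsupp.single_eq_same]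
      exact one_ne_zero
    have h6 : sc a ∈ W := h3 h5
    rw [← ha']
    exact h6
  · intro h
    exact IntermediateField.subset_adjoin _ _ ⟨n, hn, h, rfl⟩

theorem VK_EW {W : Submodule (ZMod 2) SC} (hW : W ≤ PS) : VK (EW W) = W := by
  ext v
  constructor
  · rintro ⟨n, hn, h1, rfl⟩
    exact (sqrt_mem_EW W hn).1 h1
  · intro hv
    have h0 := dd_ne_zero v (hW hv)
    refine ⟨dd v, h0, ?_, sc_dd v (hW hv)⟩
    rw [sqrt_mem_EW W h0, sc_dd v (hW hv)]
    exact hv

theorem le_EW {W : Submodule (ZMod 2) SC} (hK : K ≤ Q2) (h : VK K ≤ W) : K ≤ EW W := by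
  intro x hx
  rw [← Subtype.coe_mk x (hK hx), repr_coe _ (EW_le W)]
  intro n hn
  have h1 := (repr_coe K hK ⟨x, hK hx⟩).1 hx n hn
  rw [sqrt_mem_EW W n.2.ne_zero]
  exact h ((mem_VK n.2.ne_zero).2 h1)

theorem EW_le_of {W : Submodule (ZMod 2) SC} (h : W ≤ VK K) : EW W ≤ K := by
  unfold EW
  rw [IntermediateField.adjoin_le_iff]
  rintro _ ⟨n, hn, h1, rfl⟩
  exact (mem_VK hn).1 (h h1)

theorem EW_VK (hK : K ≤ Q2) : EW (VK K) = K := le_antisymm (EW_le_of le_rfl) (le_EW hK le_rfl)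

/-- finitely many square classes give a finite extension -/
theorem finite_EW {W : Submodule (ZMod 2) SC} (hW : (W : Set SC).Finite) :
    FiniteDimensional ℚ (EW W) := by
  by_contra hinf
  apply infinite_of (EW_le W) hinf
  apply Set.Finite.of_injOn (f := sc) (t := (W : Set SC)) _ _ hW
  · rintro n ⟨h1, h2⟩
    exact (sqrt_mem_EW W h1.ne_zero).1 h2
  · rintro m ⟨h1, _⟩ n ⟨h2, _⟩ h
    exact eq_of_sc h1 h2 h

theorem li_F (hF : F ≤ Q2) : LinearIndependent ℚ
    (fun n : {n : SF // √((n : ℕ) : ℝ) ∈ F} => (⟨√(((n : SF) : ℕ) : ℝ), n.2⟩ : F)) := by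
  apply LinearIndependent.of_comp (IntermediateField.inclusion hF).toLinearMap
  have h3 : LinearIndependent ℚ (fun n : {n : SF // √((n : ℕ) : ℝ) ∈ F} => rt ((n : SF) : ℕ)) :=
    li.comp _ Subtype.val_injective
  exact h3

/-- a finite extension has finitely many square classes -/
theorem finite_SF [FiniteDimensional ℚ F] (hF : F ≤ Q2) :
    {n : ℕ | Squarefree n ∧ √(n : ℝ) ∈ F}.Finite := by
  have h1 : Finite {n : SF // √((n : ℕ) : ℝ) ∈ F} := (li_F hF).finite
  have h2 : {n : ℕ | Squarefree n ∧ √(n : ℝ) ∈ F} =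
      Set.range (fun n : {n : SF // √((n : ℕ) : ℝ) ∈ F} => ((n : SF) : ℕ)) := by
    ext n
    constructor
    · rintro ⟨h2, h3⟩
      exact ⟨⟨⟨n, h2⟩, h3⟩, rfl⟩
    · rintro ⟨⟨⟨m, h2⟩, h3⟩, rfl⟩
      exact ⟨h2, h3⟩
  rw [h2]
  exact Set.finite_range _

theorem finite_VK [FiniteDimensional ℚ F] (hF : F ≤ Q2) :
    ((VK F : Submodule (ZMod 2) SC) : Set SC).Finite := by
  apply ((finite_SF hF).image sc).subset
  intro v hv
  exact ⟨dd v, ⟨squarefree_dd _ (VK_le hv), sqrt_dd_mem hv⟩, sc_dd _ (VK_le hv)⟩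

end Pool.Agent.TPU
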