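import Pool.Agent.Work.MP_d956f3_nt.R.Desc

set_option autoImplicit false

/-! # MP_d956f3_nt: minimal fields with a totally positive nonsquare unit -/

namespace Pool.Agent.TPU

open NumberField NumberField.Units

variable {K E F M : IntermediateField ℚ ℝ}

theorem uq_injective (hF : F ≤ Q2) : Function.Injective (uq hF) := by
  intro u v h
  apply Units.ext
  apply RingOfIntegers.ext
  apply Subtype.ext
  exact congrArg (fun z : Q2 => (z : ℝ)) h

theorem uq_pow (hF : F ≤ Q2) (u : (𝓞 F)ˣ) : uq hF (u ^ 2) = (uq hF u) ^ 2 := by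
  rw [_root_.sq, uq_mul, _root_.sq]

theorem mem_TP' (hF : F ≤ Q2) {u : (𝓞 F)ˣ} : u ∈ TP F ↔ ∀ σ : Gam, 0 < ((σ (uq hF u) : Q2) : ℝ) := by
  rw [mem_TP_iff hF]
  constructor
  · intro h σ
    exact h (res hF σ)
  · intro h φ
    obtain ⟨σ, rfl⟩ := exists_ext hF φ
    exact h σ

theorem mem_Sq' (hF : F ≤ Q2) {u : (𝓞 F)ˣ} : u ∈ Sq F ↔ ∃ t : Q2, (t : ℝ) ∈ F ∧ t ^ 2 = uq hF u := by
  rw [mem_Sq]
  constructor
  · rintro ⟨v, rfl⟩
    exact ⟨uq hF v, uq_mem hF v, (uq_pow hF v).symm⟩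
  · rintro ⟨t, ht, h⟩
    have h0 : t ≠ 0 := by
      rintro rfl
      apply uq_ne hF u
      rw [← h]
      ring
    obtain ⟨v, hv⟩ := exists_uq hF ht h0 ⟨int_of_sq (by rw [h]; exact (uq_int hF u).1),
      int_of_sq (by rw [inv_pow, h]; exact (uq_int hF u).2)⟩
    refine ⟨v, uq_injective hF ?_⟩
    rw [uq_pow, hv, h]

/-- the data of a minimal field -/
structure Dat (W : Submodule (ZMod 2) SC) (n : ℕ) (x y : Q2) : Prop where
  sf : Squarefree n
  int : IsIntegral ℤ x
  int' : IsIntegral ℤ x⁻¹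
  pos : ∀ σ : Gam, 0 < ((σ x : Q2) : ℝ)
  mem : (y : ℝ) ∈ EW W
  eq : x = n * y ^ 2
  not : sc n ∉ W

theorem Dat.ne {W : Submodule (ZMod 2) SC} {n : ℕ} {x y : Q2} (h : Dat W n x y) : x ≠ 0 := by
  intro h0
  have h1 := h.pos (AlgHom.id ℚ Q2)
  rw [h0, map_zero] at h1
  exact lt_irrefl _ h1

theorem Dat.mem' {W : Submodule (ZMod 2) SC} {n : ℕ} {x y : Q2} (h : Dat W n x y) :
    (x : ℝ) ∈ EW W := by
  have h1 : (x : ℝ) = (n : ℝ) * (y : ℝ) ^ 2 := by
    rw [h.eq]
    push_cast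
    rfl
  rw [h1]
  exact mul_mem (natCast_mem _ _) (pow_mem h.mem 2)

theorem exists_dat (W : Submodule (ZMod 2) SC) (hW : (W : Set SC).Finite) :
    W ≤ PS → ¬ TP (EW W) ≤ Sq (EW W) → ∃ W' ≤ W, ∃ n x y, Dat W' n x y := by
  refine W_induction (p := fun W => W ≤ PS → ¬ TP (EW W) ≤ Sq (EW W) →
    ∃ W' ≤ W, ∃ n x y, Dat W' n x y) ?_ W hW
  clear hW W
  intro W hW ih hPS hbad
  by_cases hmin : ∃ W' < W, ¬ TP (EW W') ≤ Sq (EW W')
  · obtain ⟨W', hlt, hb⟩ := hmin
    obtain ⟨W'', h1, h2⟩ := ih W' hlt (hlt.le.trans hPS) hb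
    exact ⟨W'', h1.trans hlt.le, h2⟩
  · have hgood : ∀ W' < W, TP (EW W') ≤ Sq (EW W') := by
      intro W' hlt
      by_contra h
      exact hmin ⟨W', hlt, h⟩
    obtain ⟨u, huT, huS⟩ := SetLike.not_le_iff_exists.1 hbad
    have hF := EW_le W
    set x := uq hF u with hx
    have hpos : ∀ σ : Gam, 0 < ((σ x : Q2) : ℝ) := (mem_TP' hF).1 huT
    have hxm : (x : ℝ) ∈ EW W := uq_mem hF u
    have hx0 : x ≠ 0 := uq_ne hF u
    have hint := uq_int hF u
    have hw : ∀ σ : Gam, ∃ w : Q2, (w : ℝ) ∈ EW W ∧ w ^ 2 = x * σ x ∧ σ w = w := by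
      intro σ
      by_cases hσ : ∀ v ∈ W, cv v σ = 0
      · have h1 : σ x = x := fix_of_cv hσ hxm
        exact ⟨x, hxm, by rw [h1, _root_.sq], h1⟩
      · have hσ' : ∃ v ∈ W, cv v σ = 1 := by
          by_contra hcon
          apply hσ
          intro v hv
          by_contra h1
          exact hcon ⟨v, hv, (zmod2_cases _).resolve_left h1⟩
        obtain ⟨v, hv, hv1⟩ := hσ'
        have hlt := fx_lt hv hv1
        have hF' := EW_le (fx W σ)
        have hm : ((x * σ x : Q2) : ℝ) ∈ EW (fx W σ) := by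
          apply fixed_mem
          · exact mul_mem hxm (stab hF σ hxm)
          · rw [map_mul, invol, mul_comm]
        have hσ0 : σ x ≠ 0 := by
          rw [Ne, map_eq_zero]
          exact hx0
        obtain ⟨u', hu'⟩ := exists_uq hF' hm (mul_ne_zero hx0 hσ0) ⟨by
          exact hint.1.mul (int_map hint.1 σ), by
          rw [mul_inv, ← map_inv₀]
          exact hint.2.mul (int_map hint.2 σ)⟩
        have hT : u' ∈ TP (EW (fx W σ)) := by
          rw [mem_TP' hF', hu']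
          intro τ
          rw [map_mul]
          have h1 := hpos τ
          have h2 := hpos (τ.comp σ)
          exact mul_pos h1 h2
        obtain ⟨t, ht, ht2⟩ := (mem_Sq' hF').1 (hgood _ hlt hT)
        refine ⟨t, EW_mono (fx_le W σ) ht, by rw [ht2, hu'], ?_⟩
        exact fix_of_cv (W := fx W σ) (fun t ht => (mem_fx.1 ht).2) ht
    obtain ⟨r, z, hz, hr⟩ := descent hPS x hx0 hw W hW le_rfl x 1 hxm (one_mem _) (by ring)
    have hr0 : 0 < r := by
      have h1 : 0 < (x : ℝ) := hpos (AlgHom.id ℚ Q2)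
      have h2 : (x : ℝ) = (r : ℝ) * (z : ℝ) ^ 2 := by
        rw [hr]
        push_cast
        rfl
      rw [h2] at h1
      have h3 : 0 < (r : ℝ) := by
        by_contra h4
        have h5 := mul_nonpos_of_nonpos_of_nonneg (not_lt.1 h4) (sq_nonneg (z : ℝ))
        exact absurd h1 (not_lt.2 h5)
      exact_mod_cast h3
    obtain ⟨n, s, hn, hs⟩ := squarefree_form hr0
    have hsz : (((s : Q2) * z : Q2) : ℝ) ∈ EW W := by
      have h1 : (((s : Q2) * z : Q2) : ℝ) = (s : ℝ) * (z : ℝ) := by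
        push_cast
        rfl
      rw [h1]
      exact mul_mem ((EW W).algebraMap_mem s) hz
    have heq : x = n * ((s : Q2) * z) ^ 2 := by
      rw [hr, hs]
      push_cast
      ring
    refine ⟨W, le_rfl, n, x, (s : Q2) * z, hn, hint.1, hint.2, hpos, hsz, heq, ?_⟩
    intro hnW
    apply huS
    rw [mem_Sq' hF]
    refine ⟨rt n * ((s : Q2) * z), ?_, ?_⟩
    · exact mul_mem ((sqrt_mem_EW W hn.ne_zero).2 hnW) hsz
    · rw [mul_pow, _root_.sq (rt n), rt_mul_self]
      exact heq.symm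

/-- the primes dividing the number of a minimal field are ramified -/
theorem Dat.ram {W : Submodule (ZMod 2) SC} {n : ℕ} {x y : Q2} (h : Dat W n x y)
    (hW : (W : Set SC).Finite) (hPS : W ≤ PS) {q : ℕ} (hq : q.Prime) (hqn : q ∣ n) : ¬ Ok q W :=
  fun hok => unr_unit hq h.sf hqn hW hPS hok h.int h.int' h.ne h.mem h.eq

theorem dvd_dd {v : SC} (hv : v ∈ PS) {q : ℕ} (hq : q.Prime) : q ∣ dd v ↔ v q ≠ 0 := by
  constructor
  · intro h h0
    have h1 := (Nat.squarefree_iff_factorization_le_one (dd_ne_zero v hv)).1 (squarefree_dd v hv) q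
    have h2 := (hq.dvd_iff_one_le_factorization (dd_ne_zero v hv)).1 h
    have h3 : sc (dd v) q = 1 := by
      rw [sc_apply]
      have : (dd v).factorization q = 1 := by omega
      rw [this, Nat.cast_one]
    rw [sc_dd v hv, h0] at h3
    exact absurd h3 (by decide)
  · intro h
    apply dvd_of_sc
    rw [sc_dd v hv]
    exact h

theorem dd_mod4 {v : SC} (h : ∀ p, v p ≠ 0 → p % 4 = 1) : dd v % 4 = 1 := by
  unfold dd
  have h1 : ∀ s : Finset ℕ, (∀ p ∈ s, p % 4 = 1) → (∏ p ∈ s, p) % 4 = 1 := by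
    intro s
    induction s using Finset.induction_on with
    | empty => intro _; rfl
    | insert a s ha ih =>
      intro h2
      rw [Finset.prod_insert ha, Nat.mul_mod, h2 a (Finset.mem_insert_self _ _),
        ih (fun p hp => h2 p (Finset.mem_insert_of_mem hp))]
  exact h1 _ (fun p hp => h p (Finsupp.mem_support_iff.1 hp))

/-! ### Supports -/

/-- square classes supported on `P` -/
def PP (P : Finset ℕ) : Submodule (ZMod 2) SC := Finsupp.supported (ZMod 2) (ZMod 2) (P : Set ℕ)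

theorem mem_PP {P : Finset ℕ} {v : SC} : v ∈ PP P ↔ ∀ p, v p ≠ 0 → p ∈ P := by
  unfold PP
  rw [Finsupp.mem_supported]
  constructor
  · intro h p hp
    exact h (Finsupp.mem_support_iff.2 hp)
  · intro h p hp
    exact h p (Finsupp.mem_support_iff.1 hp)

theorem finite_PP (P : Finset ℕ) : ((PP P : Submodule (ZMod 2) SC) : Set SC).Finite := by
  have h1 : Finite (PP P) := by
    apply Finite.of_injective (fun v : PP P => fun p : P => (v : SC) p)
    intro v w h
    apply Subtype.ext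
    ext p
    by_cases hp : p ∈ P
    · exact congrFun h ⟨p, hp⟩
    · have h2 : (v : SC) p = 0 := by
        by_contra h3
        exact hp (mem_PP.1 v.2 p h3)
      have h3 : (w : SC) p = 0 := by
        by_contra h3
        exact hp (mem_PP.1 w.2 p h3)
      rw [h2, h3]
  exact Set.toFinite _

/-- The classes of the subfield of `K` unramified outside `P ∋ 2` embed in the classes of `K`. -/
theorem card_le (hK : K ≤ Q2) (hfin : FinE K) {P : Finset ℕ} (h2 : 2 ∈ P) :
    Nat.card (TP (EW (VK K ⊓ PP P)) ⧸ (Sq (EW (VK K ⊓ PP P))).subgroupOf (TP (EW (VK K ⊓ PP P)))) ≤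
      Nat.card (TP K ⧸ (Sq K).subgroupOf (TP K)) := by
  set W := VK K ⊓ PP P with hW
  have hWK : W ≤ VK K := inf_le_left
  have hWPS : W ≤ PS := hWK.trans VK_le
  have hWf : (W : Set SC).Finite := (finite_PP P).subset (inf_le_right : W ≤ PP P)
  have hMK : EW W ≤ K := EW_le_of hWK
  have hM := EW_le W
  -- the map on units
  let ι : (𝓞 (EW W))ˣ →* (𝓞 K)ˣ := Units.map
    (RingOfIntegers.mapRingHom (IntermediateField.inclusion hMK : EW W →+* K) : 𝓞 (EW W) →* 𝓞 K)
  have hι : ∀ u, uq hK (ι u) = uq hM u := fun u => rfl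
  have hιT : ∀ u : TP (EW W), ι u ∈ TP K := by
    intro u
    rw [mem_TP' hK, hι]
    exact (mem_TP' hM).1 u.2
  let f : TP (EW W) →* TP K := (ι.comp (TP (EW W)).subtype).codRestrict (TP K) hιT
  have hle : (Sq (EW W)).subgroupOf (TP (EW W)) ≤ ((Sq K).subgroupOf (TP K)).comap f := by
    intro u hu
    rw [Subgroup.mem_subgroupOf, mem_Sq' hM] at hu
    obtain ⟨t, ht, ht2⟩ := hu
    rw [Subgroup.mem_comap, Subgroup.mem_subgroupOf, mem_Sq' hK]
    exact ⟨t, hMK ht, ht2⟩
  have hfin' : Finite (TP K ⧸ (Sq K).subgroupOf (TP K)) := hfin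
  apply Nat.card_le_card_of_injective (QuotientGroup.map _ _ f hle)
  rw [injective_iff_map_eq_one]
  intro a
  induction a using QuotientGroup.induction_on with
  | H u =>
    intro h
    rw [QuotientGroup.map_mk, QuotientGroup.eq_one_iff, Subgroup.mem_subgroupOf, mem_Sq' hK] at h
    rw [QuotientGroup.eq_one_iff, Subgroup.mem_subgroupOf, mem_Sq' hM]
    obtain ⟨t, ht, ht2⟩ := h
    refine ⟨t, ?_, ht2⟩
    have hfu : uq hK ((f u : TP K) : (𝓞 K)ˣ) = uq hM (u : (𝓞 (EW W))ˣ) := rfl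
    rw [hfu] at ht2
    have hx0 := uq_ne hM (u : (𝓞 (EW W))ˣ)
    have ht0 : t ≠ 0 := by
      rintro rfl
      apply hx0
      rw [← ht2]
      ring
    obtain ⟨n, hn, m, hm, hnm⟩ := sqrt_form hM hK t ht0 ht (by
      rw [← _root_.sq, ht2]
      exact uq_mem hM _)
    have heq : uq hM (u : (𝓞 (EW W))ˣ) = ((n : ℕ) : Q2) * m ^ 2 := by
      rw [← ht2, hnm, mul_pow, _root_.sq (rt (n : ℕ)), rt_mul_self]
    have hint := uq_int hM (u : (𝓞 (EW W))ˣ)
    have hsc : sc (n : ℕ) ∈ PP P := by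
      rw [mem_PP]
      intro q hq
      by_contra hqP
      have hqp := prime_of_sc hq
      refine unr_unit hqp n.2 (dvd_of_sc hq) hWf hWPS ?_ hint.1 hint.2 hx0 hm heq
      intro v hv
      refine ⟨fun h1 => ?_, fun h1 => ?_⟩
      · exact hqP (mem_PP.1 (inf_le_right (a := VK K) hv) q ((dvd_dd (hWPS hv) hqp).1 h1))
      · rw [h1] at hqP
        exact absurd h2 hqP
    have hnW : sc (n : ℕ) ∈ W := ⟨(mem_VK n.2.ne_zero).2 hn, hsc⟩
    rw [hnm]
    exact mul_mem ((sqrt_mem_EW W n.2.ne_zero).2 hnW) hm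

end Pool.Agent.TPU
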