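import Pool.Agent.Work.MP_d956f3_nt.R.Sign

set_option autoImplicit false

/-! # MP_d956f3_nt: units of norm -1 and signatures -/

namespace Pool.Agent.TPU

open NumberField NumberField.Units

variable {K F M : IntermediateField ℚ ℝ}

/-- the action on `F` -/
noncomputable def actF (hF : F ≤ Q2) (σ : Gam) : F →ₐ[ℚ] F :=
  AlgHom.codRestrict (Q2.val.comp (res hF σ)) F.toSubalgebra (fun x => stab hF σ x.2)

theorem actF_apply (hF : F ≤ Q2) (σ : Gam) (x : F) :
    ((actF hF σ x : F) : ℝ) = ((res hF σ x : Q2) : ℝ) := rfl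

/-- the action on units -/
noncomputable def gact (hF : F ≤ Q2) (σ : Gam) : (𝓞 F)ˣ →* (𝓞 F)ˣ :=
  Units.map (RingOfIntegers.mapRingHom (actF hF σ : F →+* F) : 𝓞 F →* 𝓞 F)

theorem gact_coe (hF : F ≤ Q2) (σ : Gam) (u : (𝓞 F)ˣ) :
    (((gact hF σ u : (𝓞 F)ˣ) : 𝓞 F) : F) = actF hF σ ((u : 𝓞 F) : F) := rfl

theorem ev_res (hF : F ≤ Q2) (σ : Gam) (u : (𝓞 F)ˣ) :
    ev (res hF σ) u = ((σ ⟨(((u : 𝓞 F) : F) : ℝ), hF ((u : 𝓞 F) : F).2⟩ : Q2) : ℝ) := rfl

theorem ev_gact (hF : F ≤ Q2) (σ τ : Gam) (u : (𝓞 F)ˣ) :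
    ev (res hF σ) (gact hF τ u) = ev (res hF (σ.comp τ)) u := rfl

theorem ev_prod {ι : Type} (s : Finset ι) (φ : XF F) (f : ι → (𝓞 F)ˣ) :
    ev φ (∏ i ∈ s, f i) = ∏ i ∈ s, ev φ (f i) := by
  classical
  induction s using Finset.induction_on with
  | empty => simp [ev_one]
  | insert a s ha ih => rw [Finset.prod_insert ha, Finset.prod_insert ha, ev_mul, ih]

/-- the inclusion -/
noncomputable def inc (hF : F ≤ Q2) : XF F := res hF (AlgHom.id ℚ Q2)

section finite

variable [FiniteDimensional ℚ F]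

theorem norm_eq (hF : F ≤ Q2) (x : F) :
    ((Algebra.norm ℚ x : ℚ) : ℝ) = ∏ φ : XF F, ((φ x : Q2) : ℝ) := by
  classical
  have h1 := Algebra.norm_eq_prod_embeddings ℚ ℂ x
  let j : Q2 →ₐ[ℚ] ℂ := (Complex.ofRealHom.toRatAlgHom).comp Q2.val
  have hj : Function.Injective j := j.toRingHom.injective
  have h2 : Function.Bijective (fun φ : XF F => (j.comp φ : F →ₐ[ℚ] ℂ)) := by
    rw [Fintype.bijective_iff_injective_and_card]
    constructor
    · intro φ ψ h
      apply AlgHom.ext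
      intro y
      apply hj
      exact DFunLike.congr_fun h y
    · rw [← Nat.card_eq_fintype_card, card_XF hF, AlgHom.card]
  rw [← Fintype.prod_bijective _ h2 (fun φ : XF F => j (φ x)) _ (fun φ => rfl)] at h1
  apply Complex.ofReal_injective
  rw [Complex.ofReal_prod]
  have h3 : (((Algebra.norm ℚ x : ℚ) : ℝ) : ℂ) = algebraMap ℚ ℂ (Algebra.norm ℚ x) := by
    rw [Complex.ofReal_ratCast]
    rfl
  rw [h3, h1]
  rfl

theorem norm_unit (hF : F ≤ Q2) (u : (𝓞 F)ˣ) :
    Algebra.norm ℚ ((u : 𝓞 F) : F) = -1 ↔ ∏ φ : XF F, sgnHom F u φ = -1 := by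
  have hNF := numberField F
  have h1 := norm_eq hF ((u : 𝓞 F) : F)
  have h2 : |Algebra.norm ℚ ((u : 𝓞 F) : F)| = 1 := NumberField.Units.norm F u
  have h3 : ∏ φ : XF F, sgnHom F u φ = sgu (((Algebra.norm ℚ ((u : 𝓞 F) : F) : ℚ) : ℝ)) := by
    rw [h1]
    exact (sgu_prod Finset.univ (fun φ : XF F => ev φ u) (fun φ _ => ev_ne φ u)).symm
  rw [h3]
  rcases (abs_eq zero_le_one).1 h2 with h4 | h4
  · rw [h4, Rat.cast_one, sgu_pos one_pos]
    constructor
    · intro h
      norm_num at h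
    · intro h
      exact absurd h (by decide)
  · rw [h4]
    push_cast
    rw [sgu_neg (by norm_num)]
    exact ⟨fun _ => rfl, fun _ => rfl⟩

theorem exists_norm_of_top (hF : F ≤ Q2) (h : (sgnHom F).range = ⊤) :
    ∃ u : (𝓞 F)ˣ, Algebra.norm ℚ ((u : 𝓞 F) : F) = -1 := by
  classical
  have h1 : (Pi.mulSingle (inc hF) (-1) : XF F → ℤˣ) ∈ (sgnHom F).range := by
    rw [h]
    trivial
  obtain ⟨u, hu⟩ := h1
  refine ⟨u, (norm_unit hF u).2 ?_⟩
  rw [hu, Finset.prod_pi_mulSingle']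
  simp

theorem top_of_norm (hF : F ≤ Q2) (u : (𝓞 F)ˣ) (hu : Algebra.norm ℚ ((u : 𝓞 F) : F) = -1) :
    (sgnHom F).range = ⊤ := by
  classical
  rw [norm_unit hF] at hu
  choose ext hext using exists_ext hF
  -- the embeddings where `u` is negative
  set A : Finset (XF F) := Finset.univ.filter (fun φ => sgnHom F u φ = -1) with hA
  set δ : (𝓞 F)ˣ := ∏ φ ∈ A, gact hF (ext φ) u with hδ
  have hz : ∀ a : ℤˣ, a ≠ -1 → a = 1 := by decide
  have hδs : ∀ h : Gam, sgnHom F δ (res hF h) = ∏ φ ∈ A, sgnHom F u (h.comp φ) := by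
    intro h
    rw [hδ, map_prod, Finset.prod_apply]
    apply Finset.prod_congr rfl
    intro φ _
    rw [sgnHom_apply, ev_gact, sgnHom_apply]
    congr 2
    conv_rhs => rw [← hext φ]
    rfl
  have hfix : ∀ (h : Gam) (φ : XF F), h.comp φ = φ → res hF h = inc hF := by
    intro h φ hh
    apply AlgHom.ext
    intro x
    have h1 : φ (actF hF (ext φ) x) = (⟨x, hF x.2⟩ : Q2) := by
      have h0 : res hF (ext φ) (actF hF (ext φ) x) = φ (actF hF (ext φ) x) :=
        DFunLike.congr_fun (hext φ) _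
      rw [← h0]
      exact invol (ext φ) (⟨x, hF x.2⟩ : Q2)
    have h2 : h (φ (actF hF (ext φ) x)) = φ (actF hF (ext φ) x) := DFunLike.congr_fun hh _
    rw [h1] at h2
    exact h2
  -- the signature of `δ`
  have hone : ∀ h : Gam, res hF h = inc hF → sgnHom F δ (res hF h) = -1 := by
    intro h hh
    rw [hδs]
    have h1 : ∀ φ : XF F, h.comp φ = φ := by
      intro φ
      apply AlgHom.ext
      intro x
      have h2 : ((φ x : Q2) : ℝ) ∈ F := by
        rw [← hext φ]
        exact stab hF _ x.2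
      exact DFunLike.congr_fun hh (⟨_, h2⟩ : F)
    rw [← hu, ← Finset.prod_filter_mul_prod_filter_not Finset.univ (fun φ => sgnHom F u φ = -1)]
    rw [Finset.prod_congr rfl (fun φ _ => by rw [h1 φ])]
    rw [Finset.prod_eq_one (s := Finset.univ.filter (fun φ => ¬ sgnHom F u φ = -1)), mul_one]
    intro φ hφ
    exact hz _ (Finset.mem_filter.1 hφ).2
  have hother : ∀ h : Gam, res hF h ≠ inc hF → sgnHom F δ (res hF h) = 1 := by
    intro h hh
    rw [hδs, ← Finset.prod_filter_mul_prod_filter_not A (fun φ => sgnHom F u (h.comp φ) = -1)]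
    rw [Finset.prod_eq_one (s := A.filter (fun φ => ¬ sgnHom F u (h.comp φ) = -1)), mul_one]
    · refine Finset.prod_involution (fun φ _ => h.comp φ) ?_ ?_ ?_ ?_
      · intro φ hφ
        have h1 := (Finset.mem_filter.1 hφ).2
        have h2 := (Finset.mem_filter.1 (Finset.mem_filter.1 hφ).1).2
        have h3 : h.comp (h.comp φ) = φ := by
          apply AlgHom.ext
          intro x
          exact invol h _
        rw [h3, h1, h2]
        rfl
      · intro φ _ _ h2
        exact hh (hfix h φ h2)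
      · intro φ hφ
        have h1 := (Finset.mem_filter.1 hφ).2
        have h2 := (Finset.mem_filter.1 (Finset.mem_filter.1 hφ).1).2
        have h3 : h.comp (h.comp φ) = φ := by
          apply AlgHom.ext
          intro x
          exact invol h _
        apply Finset.mem_filter.2
        refine ⟨Finset.mem_filter.2 ⟨Finset.mem_univ _, h1⟩, ?_⟩
        rw [h3]
        exact h2
      · intro φ _
        apply AlgHom.ext
        intro x
        exact invol h _
    · intro φ hφ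
      exact hz _ (Finset.mem_filter.1 hφ).2
  -- the translates
  have hsingle : ∀ φ : XF F, (Pi.mulSingle φ (-1) : XF F → ℤˣ) ∈ (sgnHom F).range := by
    intro φ
    refine ⟨gact hF (ext φ) δ, ?_⟩
    funext ψ
    obtain ⟨σ, rfl⟩ := exists_ext hF ψ
    have h1 : sgnHom F (gact hF (ext φ) δ) (res hF σ) = sgnHom F δ (res hF (σ.comp (ext φ))) := rfl
    rw [h1]
    by_cases h2 : res hF σ = φ
    · rw [hone, h2, Pi.mulSingle_eq_same]
      apply AlgHom.ext
      intro x
      have h3 : σ (ext φ ⟨x, hF x.2⟩) = (⟨x, hF x.2⟩ : Q2) := by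
        rw [comm]
        have h4 : σ ⟨x, hF x.2⟩ = ext φ ⟨x, hF x.2⟩ := by
          have h5 : res hF σ x = res hF (ext φ) x := by rw [h2, hext]
          exact h5
        rw [h4, invol]
      exact h3
    · rw [hother, Pi.mulSingle_eq_of_ne h2]
      intro h3
      apply h2
      rw [← hext φ]
      apply AlgHom.ext
      intro x
      have h4 : σ (ext φ ⟨x, hF x.2⟩) = (⟨x, hF x.2⟩ : Q2) := DFunLike.congr_fun h3 x
      have h5 := congrArg σ h4
      rw [invol] at h5
      exact h5.symm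
  rw [eq_top_iff]
  intro f _
  rw [← Finset.univ_prod_mulSingle f]
  apply Subgroup.prod_mem
  intro φ _
  by_cases h1 : f φ = -1
  · rw [h1]
    exact hsingle φ
  · rw [hz _ h1, Pi.mulSingle_one]
    exact one_mem _

theorem triv_iff_norm (hF : F ≤ Q2) :
    TP F ≤ Sq F ↔ ∃ u : (𝓞 F)ˣ, Algebra.norm ℚ ((u : 𝓞 F) : F) = -1 := by
  rw [triv_iff hF]
  exact ⟨exists_norm_of_top hF, fun ⟨u, hu⟩ => top_of_norm hF u hu⟩

end finite

end Pool.Agent.TPU
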