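import Pool.Agent.Work.MP_d956f3_nt.R.Min

set_option autoImplicit false

/-! # MP_d956f3_nt: rigidity -/

namespace Pool.Agent.TPU

open NumberField NumberField.Units

variable {K E F M L : IntermediateField ℚ ℝ}

/-- everything for a set `S` of primes -/
structure Dat' (K : IntermediateField ℚ ℝ) (S : Finset ℕ) (W : Submodule (ZMod 2) SC) (n : ℕ)
    (x y : Q2) : Prop where
  dat : Dat W n x y
  fin : (W : Set SC).Finite
  le : W ≤ VK K
  away : ∀ v ∈ W, ∀ p ∈ S, v p = 0
  sup : ∀ p, sc n p ≠ 0 → ∃ v ∈ W, v p ≠ 0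

open Classical in
/-- the primes of `W` -/
noncomputable def suppW {W : Submodule (ZMod 2) SC} (hW : (W : Set SC).Finite) : Finset ℕ :=
  hW.toFinset.biUnion Finsupp.support

theorem mem_suppW {W : Submodule (ZMod 2) SC} (hW : (W : Set SC).Finite) {p : ℕ} :
    p ∈ suppW hW ↔ ∃ v ∈ W, v p ≠ 0 := by
  classical
  unfold suppW
  rw [Finset.mem_biUnion]
  constructor
  · rintro ⟨v, hv, hp⟩
    exact ⟨v, hW.mem_toFinset.1 hv, Finsupp.mem_support_iff.1 hp⟩
  · rintro ⟨v, hv, hp⟩
    exact ⟨v, hW.mem_toFinset.2 hv, Finsupp.mem_support_iff.2 hp⟩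

theorem disjoint_bound (hK : K ≤ Q2) (hfin : FinE K) (m : ℕ) (W : ℕ → Submodule (ZMod 2) SC)
    (n : ℕ → ℕ) (x y : ℕ → Q2) (S : ℕ → Finset ℕ) (h2 : 2 ∈ S m)
    (hD : ∀ k < m, Dat' K (S k) (W k) (n k) (x k) (y k))
    (hsup : ∀ k < m, ∀ v ∈ W k, ∀ p, v p ≠ 0 → p ∈ S m)
    (hdisj : ∀ i < m, ∀ j < m, i ≠ j → ∀ v ∈ W i, ∀ w ∈ W j, ∀ p, v p = 0 ∨ w p = 0) :
    m ≤ Nat.card (TP K ⧸ (Sq K).subgroupOf (TP K)) := by
  classical
  set WL : Submodule (ZMod 2) SC := ⨆ k : Fin m, W k with hWL
  set P := S m with hP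
  have hWLM : WL ≤ VK K ⊓ PP P := by
    apply iSup_le
    intro k
    apply le_inf (hD k k.2).le
    intro v hv
    exact mem_PP.2 (hsup k k.2 v hv)
  have hLM : EW WL ≤ EW (VK K ⊓ PP P) := EW_mono hWLM
  have hMf : ((VK K ⊓ PP P : Submodule (ZMod 2) SC) : Set SC).Finite :=
    (finite_PP P).subset (inf_le_right : VK K ⊓ PP P ≤ PP P)
  have hLf : (WL : Set SC).Finite := hMf.subset hWLM
  have hfdM := finite_EW hMf
  have hfdL := finite_EW hLf
  have hM := EW_le (VK K ⊓ PP P)
  have hL := EW_le WL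
  have h1 := card_T_dvd hLM hM
  have h3 : Nat.card (TP (EW (VK K ⊓ PP P)) ⧸
      (Sq (EW (VK K ⊓ PP P))).subgroupOf (TP (EW (VK K ⊓ PP P)))) ≠ 0 := by
    rw [card_T hM]
    exact Subgroup.index_ne_zero_of_finite
  have h4 : Nat.card (TP (EW WL) ⧸ (Sq (EW WL)).subgroupOf (TP (EW WL))) ≠ 0 := by
    rw [card_T hL]
    exact Subgroup.index_ne_zero_of_finite
  have h5 := Nat.le_of_dvd (Nat.pos_of_ne_zero h3) h1
  refine le_trans ?_ (h5.trans (card_le hK hfin h2))
  -- the classes of the units are different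
  have hmem : ∀ k : Fin m, EW (W k) ≤ EW WL := fun k => EW_mono (le_iSup (fun k : Fin m => W k) k)
  have hu : ∀ k : Fin m, ∃ u : (𝓞 (EW WL))ˣ, u ∈ TP (EW WL) ∧ uq hL u = x k := by
    intro k
    have hd := (hD k k.2).dat
    obtain ⟨u, hu⟩ := exists_uq hL (hmem k hd.mem') hd.ne ⟨hd.int, hd.int'⟩
    refine ⟨u, ?_, hu⟩
    rw [mem_TP' hL, hu]
    exact hd.pos
  choose u huT hux using hu
  have hfinL : Finite (TP (EW WL) ⧸ (Sq (EW WL)).subgroupOf (TP (EW WL))) :=
    Nat.finite_of_card_ne_zero h4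
  have hinj : Function.Injective (fun k : Fin m =>
      (QuotientGroup.mk ⟨u k, huT k⟩ : TP (EW WL) ⧸ (Sq (EW WL)).subgroupOf (TP (EW WL)))) := by
    intro i j hij
    by_contra hne
    rw [QuotientGroup.eq, Subgroup.mem_subgroupOf, mem_Sq' hL] at hij
    obtain ⟨t, ht, ht2⟩ := hij
    have hval : uq hL (((⟨u i, huT i⟩⁻¹ * ⟨u j, huT j⟩ : TP (EW WL)) : (𝓞 (EW WL))ˣ)) =
        (x i)⁻¹ * x j := by
      have e1 : (((⟨u i, huT i⟩⁻¹ * ⟨u j, huT j⟩ : TP (EW WL)) : (𝓞 (EW WL))ˣ)) =
        (u i)⁻¹ * u j := rfl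
      rw [e1, uq_mul, uq_inv, hux, hux]
    rw [hval] at ht2
    have di := (hD i i.2).dat
    have dj := (hD j j.2).dat
    have hyi : y i ≠ 0 := by
      intro h
      apply di.ne
      rw [di.eq, h]
      ring
    have hyj : y j ≠ 0 := by
      intro h
      apply dj.ne
      rw [dj.eq, h]
      ring
    have hni : ((n i : ℕ) : Q2) ≠ 0 := by exact_mod_cast di.sf.ne_zero
    have hnj : ((n j : ℕ) : Q2) ≠ 0 := by exact_mod_cast dj.sf.ne_zero
    have hsq : rt (n i * n j) * rt (n i * n j) =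
        (n i * t * y i / y j) * (n i * t * y i / y j) := by
      rw [rt_mul_self]
      have e1 : (n i * t * y i / y j) * (n i * t * y i / y j) =
          (n i : Q2) ^ 2 * t ^ 2 * (y i) ^ 2 / (y j) ^ 2 := by
        field_simp
      rw [e1, ht2]
      push_cast
      rw [di.eq, dj.eq]
      field_simp
    have hmem2 : ((rt (n i * n j) : Q2) : ℝ) ∈ EW WL := by
      have e2 : ((n i * t * y i / y j : Q2) : ℝ) ∈ EW WL := by
        have e3 : ((n i * t * y i / y j : Q2) : ℝ) =
            (n i : ℝ) * (t : ℝ) * ((y i : Q2) : ℝ) / ((y j : Q2) : ℝ) := by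
          push_cast
          rfl
        rw [e3]
        exact div_mem (mul_mem (mul_mem (natCast_mem _ _) ht) (hmem i di.mem)) (hmem j dj.mem)
      rcases mul_self_eq_mul_self_iff.1 hsq with h | h
      · rw [h]
        exact e2
      · rw [h]
        exact neg_mem e2
    rw [coe_rt, sqrt_mem_EW WL (mul_ne_zero di.sf.ne_zero dj.sf.ne_zero),
      sc_mul di.sf.ne_zero dj.sf.ne_zero] at hmem2
    -- projection to the support of `W i`
    set A : ℕ → Prop := fun p => ∃ v ∈ W i, v p ≠ 0 with hA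
    have hproj : ∀ z ∈ WL, z.filter A ∈ W i := by
      intro z hz
      refine Submodule.iSup_induction (fun k : Fin m => W k) (motive := fun z => z.filter A ∈ W i)
        hz ?_ ?_ ?_
      · intro k v hv
        by_cases hk : k = i
        · subst hk
          have e4 : v.filter A = v := by
            ext p
            by_cases hp : A p
            · rw [Finsupp.filter_apply_pos _ _ hp]
            · rw [Finsupp.filter_apply_neg _ _ hp]
              by_contra h6
              exact hp ⟨v, hv, fun h7 => h6 h7.symm⟩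
          rw [e4]
          exact hv
        · have e4 : v.filter A = 0 := by
            ext p
            by_cases hp : A p
            · rw [Finsupp.filter_apply_pos _ _ hp]
              obtain ⟨w, hw, hwp⟩ := hp
              have hki : (k : ℕ) ≠ (i : ℕ) := fun h => hk (Fin.ext h)
              rcases hdisj k k.2 i i.2 hki v hv w hw p with h6 | h6
              · exact h6
              · exact absurd h6 hwp
            · rw [Finsupp.filter_apply_neg _ _ hp]
              rfl
          rw [e4]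
          exact (W i).zero_mem
      · rw [Finsupp.filter_zero]
        exact (W i).zero_mem
      · intro a b ha hb
        rw [Finsupp.filter_add]
        exact (W i).add_mem ha hb
    have h6 := hproj _ hmem2
    rw [Finsupp.filter_add] at h6
    have h7 : (sc (n i)).filter A = sc (n i) := by
      ext p
      by_cases hp : A p
      · rw [Finsupp.filter_apply_pos _ _ hp]
      · rw [Finsupp.filter_apply_neg _ _ hp]
        by_contra h8
        exact hp ((hD i i.2).sup p (fun h9 => h8 h9.symm))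
    have h8 : (sc (n j)).filter A = 0 := by
      ext p
      by_cases hp : A p
      · rw [Finsupp.filter_apply_pos _ _ hp]
        obtain ⟨w, hw, hwp⟩ := hp
        by_contra h9
        obtain ⟨v, hv, hvp⟩ := (hD j j.2).sup p h9
        have hij' : (i : ℕ) ≠ (j : ℕ) := fun h => hne (Fin.ext h)
        rcases hdisj i i.2 j j.2 hij' w hw v hv p with h10 | h10
        · exact hwp h10
        · exact hvp h10
      · rw [Finsupp.filter_apply_neg _ _ hp]
        rfl
    rw [h7, h8, add_zero] at h6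
    exact di.not h6
  have h6 := Nat.card_le_card_of_injective _ hinj
  rwa [Nat.card_eq_fintype_card, Fintype.card_fin] at h6

/-- Rigidity. -/
theorem rigid (hK : K ≤ Q2) (hfin : FinE K) (hinf : ¬ FiniteDimensional ℚ K) :
    ∃ S : Finset ℕ, ∀ W ≤ VK K, (W : Set SC).Finite → (∀ v ∈ W, ∀ p ∈ S, v p = 0) →
      TP (EW W) ≤ Sq (EW W) := by
  classical
  by_contra hcon
  push Not at hcon
  -- data for every set of primes
  have hdat : ∀ S : Finset ℕ, ∃ W n x y, Dat' K (insert 2 S) W n x y := by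
    intro S
    obtain ⟨W, hWK, hWf, haw, hbad⟩ := hcon (insert 2 S)
    have hWPS : W ≤ PS := hWK.trans VK_le
    obtain ⟨W', hW', n, x, y, hd⟩ := exists_dat W hWf hWPS hbad
    have hW'f : (W' : Set SC).Finite := hWf.subset hW'
    refine ⟨W', n, x, y, hd, hW'f, hW'.trans hWK, fun v hv => haw v (hW' hv), ?_⟩
    intro q hq
    by_contra hno
    have hqp := prime_of_sc hq
    have hno' : ∀ v ∈ W', v q = 0 := by
      intro v hv
      by_contra h1
      exact hno ⟨v, hv, h1⟩
    refine hd.ram hW'f (hW'.trans hWPS) hqp (dvd_of_sc hq) ?_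
    intro v hv
    have hvPS := hWPS (hW' hv)
    refine ⟨fun h1 => (dvd_dd hvPS hqp).1 h1 (hno' v hv), fun _ => ?_⟩
    apply dd_mod4
    intro p hp
    have hpp : p.Prime := hvPS p hp
    have hvK := hWK (hW' hv)
    have h3 := no_three hK hfin hinf (squarefree_dd v hvPS) (sqrt_dd_mem hvK) hpp
      ((dvd_dd hvPS hpp).2 hp)
    have h4 : p ≠ 2 := by
      rintro rfl
      exact hp (haw v (hW' hv) 2 (Finset.mem_insert_self _ _))
    rcases hpp.eq_two_or_odd with h5 | h5
    · exact absurd h5 h4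
    · omega
  choose Wf nf xf yf hf using hdat
  -- the sequence
  let S : ℕ → Finset ℕ := fun k => Nat.rec {2} (fun _ T => T ∪ suppW (hf T).fin) k
  have hS0 : S 0 = {2} := rfl
  have hSs : ∀ k, S (k + 1) = S k ∪ suppW (hf (S k)).fin := fun k => rfl
  have hmono : ∀ i j, i ≤ j → S i ⊆ S j := by
    intro i j hij
    induction hij with
    | refl => exact Finset.Subset.refl _
    | step _ ih =>
      refine ih.trans ?_
      rw [hSs]
      exact Finset.subset_union_left
  have h2 : ∀ k, 2 ∈ S k := fun k => hmono 0 k (Nat.zero_le k) (by rw [hS0]; exact Finset.mem_singleton_self 2)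
  have hsupp : ∀ k, ∀ v ∈ Wf (S k), ∀ p, v p ≠ 0 → p ∈ S (k + 1) := by
    intro k v hv p hp
    rw [hSs]
    exact Finset.mem_union_right _ ((mem_suppW _).2 ⟨v, hv, hp⟩)
  have haway : ∀ k, ∀ v ∈ Wf (S k), ∀ p ∈ S k, v p = 0 := by
    intro k v hv p hp
    exact (hf (S k)).away v hv p (Finset.mem_insert_of_mem hp)
  have hdisj' : ∀ i j, i < j → ∀ v ∈ Wf (S i), ∀ w ∈ Wf (S j), ∀ p, v p = 0 ∨ w p = 0 := by
    intro i j hij v hv w hw p
    by_cases hp : v p = 0
    · exact Or.inl hp
    · right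
      exact haway j w hw p (hmono (i + 1) j hij (hsupp i v hv p hp))
  have hall := disjoint_bound hK hfin (Nat.card (TP K ⧸ (Sq K).subgroupOf (TP K)) + 1)
    (fun k => Wf (S k)) (fun k => nf (S k)) (fun k => xf (S k)) (fun k => yf (S k))
    (fun k => if k < Nat.card (TP K ⧸ (Sq K).subgroupOf (TP K)) + 1 then insert 2 (S k) else S k)
    (by
      rw [if_neg (lt_irrefl _)]
      exact h2 (Nat.card (TP K ⧸ (Sq K).subgroupOf (TP K)) + 1))
    (by
      intro k hk
      rw [if_pos hk]
      exact hf (S k))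
    (by
      intro k hk v hv p hp
      rw [if_neg (lt_irrefl _)]
      exact hmono (k + 1) _ hk (hsupp k v hv p hp))
    (by
      intro i _ j _ hij v hv w hw p
      rcases lt_or_gt_of_ne hij with h | h
      · exact hdisj' i j h v hv w hw p
      · exact (hdisj' j i h w hw v hv p).symm)
  omega

/-- the converse -/
theorem converse (hL : L ≤ Q2)
    (h : ∀ W ≤ VK L, (W : Set SC).Finite → TP (EW W) ≤ Sq (EW W)) : TP L ≤ Sq L := by
  intro u hu
  set x := uq hL u with hx
  have hxL : (x : ℝ) ∈ L := uq_mem hL u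
  set W : Submodule (ZMod 2) SC :=
    Submodule.span (ZMod 2) ((fun n : SF => sc (n : ℕ)) '' ((bas.repr x).support : Set SF)) with hW
  have hWf : (W : Set SC).Finite := finite_span _ ((Finset.finite_toSet _).image _)
  have hWL : W ≤ VK L := by
    rw [hW, Submodule.span_le]
    rintro _ ⟨n, hn, rfl⟩
    exact (mem_VK n.2.ne_zero).2 ((repr_coe L hL x).1 hxL n hn)
  have hF := EW_le W
  have hxW : (x : ℝ) ∈ EW W := by
    rw [repr_EW]
    intro n hn
    exact Submodule.subset_span ⟨n, hn, rfl⟩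
  obtain ⟨u', hu'⟩ := exists_uq hF hxW (uq_ne hL u) (uq_int hL u)
  have hT : u' ∈ TP (EW W) := by
    rw [mem_TP' hF, hu']
    exact (mem_TP' hL).1 hu
  obtain ⟨t, ht, ht2⟩ := (mem_Sq' hF).1 (h W hWL hWf hT)
  rw [mem_Sq' hL]
  exact ⟨t, EW_le_of hWL ht, by rw [ht2, hu']⟩

/-- square classes away from `S` -/
def AW (S : Finset ℕ) : Submodule (ZMod 2) SC where
  carrier := {v | ∀ p ∈ S, v p = 0}
  zero_mem' := fun _ _ => rfl
  add_mem' := by
    intro a b ha hb p hp
    rw [Finsupp.add_apply, ha p hp, hb p hp, add_zero]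
  smul_mem' := by
    intro c a ha p hp
    rw [Finsupp.smul_apply, ha p hp, smul_zero]

theorem infinite_AW (hK : K ≤ Q2) (hinf : ¬ FiniteDimensional ℚ K) (S : Finset ℕ) :
    ¬ FiniteDimensional ℚ (EW (VK K ⊓ AW S)) := by
  classical
  intro hfd
  have hle : VK K ⊓ AW S ≤ PS := inf_le_left.trans VK_le
  have h1 := finite_VK (F := EW (VK K ⊓ AW S)) (EW_le _)
  rw [VK_EW hle] at h1
  -- `VK K` is infinite
  have h2 : Infinite (VK K) := by
    have h3 := infinite_of hK hinf
    have h4 : Infinite {n : ℕ | Squarefree n ∧ √(n : ℝ) ∈ K} := h3.to_subtype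
    refine Infinite.of_injective
      (fun n : {n : ℕ | Squarefree n ∧ √(n : ℝ) ∈ K} =>
        (⟨sc (n : ℕ), (mem_VK n.2.1.ne_zero).2 n.2.2⟩ : VK K)) ?_
    intro m n h
    apply Subtype.ext
    exact eq_of_sc m.2.1 n.2.1 (congrArg Subtype.val h)
  obtain ⟨c, hc⟩ := Finite.exists_infinite_fiber
    (fun v : VK K => (fun p : S => (v : SC) p))
  obtain ⟨v0⟩ : Nonempty ((fun v : VK K => (fun p : S => (v : SC) p)) ⁻¹' {c}) := inferInstance
  have h5 : ∀ v : ((fun v : VK K => (fun p : S => (v : SC) p)) ⁻¹' {c}),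
      ((v : VK K) : SC) + ((v0 : VK K) : SC) ∈ (VK K ⊓ AW S : Submodule (ZMod 2) SC) := by
    intro v
    refine ⟨(VK K).add_mem v.1.2 v0.1.2, ?_⟩
    intro p hp
    have a1 : (fun p : S => ((v : VK K) : SC) p) = c := v.2
    have a2 : (fun p : S => ((v0 : VK K) : SC) p) = c := v0.2
    have a3 := congrFun (a1.trans a2.symm) ⟨p, hp⟩
    rw [Finsupp.add_apply]
    have a4 : ((v : VK K) : SC) p = ((v0 : VK K) : SC) p := a3
    rw [a4, zmod2_add_self]
  have h6 : Finite (VK K ⊓ AW S : Submodule (ZMod 2) SC) := h1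
  have h7 : Finite ((fun v : VK K => (fun p : S => (v : SC) p)) ⁻¹' {c}) := by
    refine Finite.of_injective (fun v => (⟨_, h5 v⟩ : (VK K ⊓ AW S : Submodule (ZMod 2) SC))) ?_
    intro v w h
    apply Subtype.ext
    apply Subtype.ext
    have h8 : ((v : VK K) : SC) + ((v0 : VK K) : SC) = ((w : VK K) : SC) + ((v0 : VK K) : SC) :=
      congrArg Subtype.val h
    exact add_right_cancel h8
  exact not_finite ((fun v : VK K => (fun p : S => (v : SC) p)) ⁻¹' {c})

end Pool.Agent.TPU
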