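import Pool.Agent.Work.MP_d956f3_nt.R.Dir

set_option autoImplicit false

/-! # MP_d956f3_nt: signatures of units -/

namespace Pool.Agent.TPU

open NumberField NumberField.Units

variable {K F M : IntermediateField ℚ ℝ}

/-- the sign of a real number -/
noncomputable def sgu (r : ℝ) : ℤˣ := if 0 < r then 1 else -1

theorem sgu_pos {r : ℝ} (h : 0 < r) : sgu r = 1 := if_pos h

theorem sgu_neg {r : ℝ} (h : r < 0) : sgu r = -1 := if_neg (not_lt.2 h.le)

theorem sgu_eq_one {r : ℝ} : sgu r = 1 ↔ 0 < r := by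
  unfold sgu
  split_ifs with h
  · exact ⟨fun _ => h, fun _ => rfl⟩
  · exact ⟨fun h1 => absurd h1 (by decide), fun h1 => absurd h1 h⟩

theorem sgu_mul {r s : ℝ} (hr : r ≠ 0) (hs : s ≠ 0) : sgu (r * s) = sgu r * sgu s := by
  rcases lt_or_gt_of_ne hr with h1 | h1 <;> rcases lt_or_gt_of_ne hs with h2 | h2
  · rw [sgu_neg h1, sgu_neg h2, sgu_pos (mul_pos_of_neg_of_neg h1 h2)]
    rfl
  · rw [sgu_neg h1, sgu_pos h2, sgu_neg (mul_neg_of_neg_of_pos h1 h2), mul_one]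
  · rw [sgu_pos h1, sgu_neg h2, sgu_neg (mul_neg_of_pos_of_neg h1 h2), one_mul]
  · rw [sgu_pos h1, sgu_pos h2, sgu_pos (mul_pos h1 h2), mul_one]

theorem sgu_prod {ι : Type} (s : Finset ι) (f : ι → ℝ) (h : ∀ i ∈ s, f i ≠ 0) :
    sgu (∏ i ∈ s, f i) = ∏ i ∈ s, sgu (f i) := by
  classical
  induction s using Finset.induction_on with
  | empty => simp [sgu_pos one_pos]
  | insert a s ha ih =>
    rw [Finset.prod_insert ha, Finset.prod_insert ha, sgu_mul, ih]
    · intro i hi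
      exact h i (Finset.mem_insert_of_mem hi)
    · exact h a (Finset.mem_insert_self _ _)
    · exact Finset.prod_ne_zero_iff.2 fun i hi => h i (Finset.mem_insert_of_mem hi)

/-- the value of a unit at an embedding -/
noncomputable def ev (φ : XF F) (u : (𝓞 F)ˣ) : ℝ := ((φ ((u : 𝓞 F) : F) : Q2) : ℝ)

theorem ev_ne (φ : XF F) (u : (𝓞 F)ˣ) : ev φ u ≠ 0 := by
  intro h
  have h1 : (φ ((u : 𝓞 F) : F) : Q2) = 0 := Subtype.ext h
  rw [map_eq_zero] at h1
  exact coe_ne_zero u h1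

theorem ev_mul (φ : XF F) (u v : (𝓞 F)ˣ) : ev φ (u * v) = ev φ u * ev φ v := by
  unfold ev
  have : (((u * v : (𝓞 F)ˣ) : 𝓞 F) : F) = ((u : 𝓞 F) : F) * ((v : 𝓞 F) : F) := rfl
  rw [this, map_mul]
  rfl

theorem ev_one (φ : XF F) : ev φ 1 = 1 := by
  unfold ev
  have : (((1 : (𝓞 F)ˣ) : 𝓞 F) : F) = 1 := rfl
  rw [this, map_one]
  rfl

/-- signatures -/
noncomputable def sgnHom (F : IntermediateField ℚ ℝ) : (𝓞 F)ˣ →* (XF F → ℤˣ) where
  toFun u φ := sgu (ev φ u)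
  map_one' := by
    funext φ
    rw [ev_one, sgu_pos one_pos]
    rfl
  map_mul' u v := by
    funext φ
    rw [ev_mul, sgu_mul (ev_ne φ u) (ev_ne φ v)]
    rfl

theorem sgnHom_apply (u : (𝓞 F)ˣ) (φ : XF F) : sgnHom F u φ = sgu (ev φ u) := rfl

theorem mem_TP {u : (𝓞 F)ˣ} : u ∈ TP F ↔ ∀ φ : F →+* ℝ, 0 < φ ((u : 𝓞 F) : F) := Iff.rfl

theorem mem_TP_iff (hF : F ≤ Q2) {u : (𝓞 F)ˣ} : u ∈ TP F ↔ ∀ φ : XF F, 0 < ev φ u := by
  constructor
  · intro h φ
    obtain ⟨σ, rfl⟩ := exists_ext hF φ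
    exact h (emb hF σ)
  · intro h φ
    obtain ⟨σ, hσ⟩ := emb_eq hF φ
    rw [hσ]
    exact h _

theorem ker_sgn (hF : F ≤ Q2) : (sgnHom F).ker = TP F := by
  ext u
  rw [MonoidHom.mem_ker, mem_TP_iff hF]
  constructor
  · intro h φ
    have h1 := congrFun h φ
    rw [sgnHom_apply] at h1
    exact sgu_eq_one.1 h1
  · intro h
    funext φ
    exact sgu_eq_one.2 (h φ)

theorem Sq_le_TP : Sq F ≤ TP F := by
  rintro _ ⟨v, rfl⟩
  intro φ
  have h1 : ((((powMonoidHom 2 v : (𝓞 F)ˣ)) : 𝓞 F) : F) = ((v : 𝓞 F) : F) * ((v : 𝓞 F) : F) := by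
    have : (powMonoidHom 2 v : (𝓞 F)ˣ) = v * v := sq v
    rw [this]
    rfl
  rw [h1, map_mul]
  apply mul_self_pos.2
  intro h2
  rw [map_eq_zero] at h2
  exact coe_ne_zero v h2

section finite

variable [FiniteDimensional ℚ F]

theorem card_target (hF : F ≤ Q2) : Nat.card (XF F → ℤˣ) = 2 ^ Module.finrank ℚ F := by
  rw [Nat.card_fun, card_XF hF]
  congr 1
  rw [Nat.card_eq_fintype_card]
  rfl

/-- the number of classes of totally positive units is the index of the signatures -/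
theorem card_T (hF : F ≤ Q2) :
    Nat.card (TP F ⧸ (Sq F).subgroupOf (TP F)) = (sgnHom F).range.index := by
  have h1 : (Sq F).relIndex (TP F) * (TP F).index = (Sq F).index :=
    Subgroup.relIndex_mul_index Sq_le_TP
  have h2 : (TP F).index = Nat.card (sgnHom F).range := by
    rw [← ker_sgn hF, Subgroup.index_ker]
  have h3 : (Sq F).index = 2 ^ Module.finrank ℚ F := card_sq hF
  have h4 : Nat.card (sgnHom F).range * (sgnHom F).range.index = 2 ^ Module.finrank ℚ F := by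
    rw [Subgroup.card_mul_index, card_target hF]
  have h5 : 0 < Nat.card (sgnHom F).range := Nat.card_pos
  rw [h2, h3, ← h4, mul_comm] at h1
  exact Nat.eq_of_mul_eq_mul_left h5 h1

theorem triv_iff (hF : F ≤ Q2) : TP F ≤ Sq F ↔ (sgnHom F).range = ⊤ := by
  rw [← Subgroup.index_eq_one, ← card_T hF]
  have h1 : Nat.card (TP F ⧸ (Sq F).subgroupOf (TP F)) = ((Sq F).subgroupOf (TP F)).index := rfl
  rw [h1, Subgroup.index_eq_one, Subgroup.subgroupOf_eq_top]

end finite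

end Pool.Agent.TPU
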