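import Pool.Agent.Work.MP_d956f3_nt.R.Rig

set_option autoImplicit false

/-! # MP_d956f3_nt: the number of classes is the supremum over the finite subfields -/

namespace Pool.Agent.TPU

open NumberField NumberField.Units

variable {K E F M L : IntermediateField ℚ ℝ}

/-- the classes -/
abbrev TT (K : IntermediateField ℚ ℝ) : Type := TP K ⧸ (Sq K).subgroupOf (TP K)

theorem card_ne [FiniteDimensional ℚ F] (hF : F ≤ Q2) : Nat.card (TT F) ≠ 0 := by
  have h := card_T hF
  intro h0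
  have h1 : (sgnHom F).range.index = 0 := by rw [← h]; exact h0
  exact Subgroup.index_ne_zero_of_finite h1

theorem finite_TT [FiniteDimensional ℚ F] (hF : F ≤ Q2) : Finite (TT F) :=
  Nat.finite_of_card_ne_zero (card_ne hF)

/-- a finite subfield has at most as many classes -/
theorem le_card (hK : K ≤ Q2) (hfin : FinE K) (hFK : F ≤ K) [FiniteDimensional ℚ F] :
    Nat.card (TT F) ≤ Nat.card (TT K) := by
  classical
  have hF := hFK.trans hK
  set P := insert 2 (suppW (finite_VK hF)) with hP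
  have hle : VK F ≤ VK K ⊓ PP P := by
    apply le_inf
    · intro v hv
      have hv' := VK_le hv
      rw [← sc_dd v hv', mem_VK (dd_ne_zero v hv')]
      exact hFK (sqrt_dd_mem hv)
    · intro v hv
      rw [mem_PP]
      intro p hp
      exact Finset.mem_insert_of_mem ((mem_suppW _).2 ⟨v, hv, hp⟩)
  have hMf : ((VK K ⊓ PP P : Submodule (ZMod 2) SC) : Set SC).Finite :=
    (finite_PP P).subset (inf_le_right : VK K ⊓ PP P ≤ PP P)
  have hfdM := finite_EW hMf
  have hM := EW_le (VK K ⊓ PP P)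
  have h1 : F ≤ EW (VK K ⊓ PP P) := le_EW hF hle
  have h2 := Nat.le_of_dvd (Nat.pos_of_ne_zero (card_ne hM)) (card_T_dvd h1 hM)
  exact h2.trans (card_le hK hfin (Finset.mem_insert_self _ _))

/-- finitely many classes of `K` come from a finite subfield -/
theorem exists_F (hK : K ≤ Q2) (m : ℕ) (f : Fin m → TT K) (hf : Function.Injective f) :
    ∃ F ≤ K, FiniteDimensional ℚ F ∧ m ≤ Nat.card (TT F) := by
  classical
  choose g hg using fun i => QuotientGroup.mk_surjective (f i)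
  set x : Fin m → Q2 := fun i => uq hK (g i : (𝓞 K)ˣ) with hx
  have hxK : ∀ i, ((x i : Q2) : ℝ) ∈ K := fun i => uq_mem hK _
  set W : Submodule (ZMod 2) SC := Submodule.span (ZMod 2)
    (⋃ i, (fun n : SF => sc (n : ℕ)) '' ((bas.repr (x i)).support : Set SF)) with hW
  have hWf : (W : Set SC).Finite := finite_span _
    (Set.finite_iUnion fun i => (Finset.finite_toSet _).image _)
  have hWK : W ≤ VK K := by
    rw [hW, Submodule.span_le]
    rintro v hv
    obtain ⟨i, n, hn, rfl⟩ := Set.mem_iUnion.1 hv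
    exact (mem_VK n.2.ne_zero).2 ((repr_coe K hK (x i)).1 (hxK i) n hn)
  have hF := EW_le W
  have hFK : EW W ≤ K := EW_le_of hWK
  have hfd := finite_EW hWf
  have hxW : ∀ i, ((x i : Q2) : ℝ) ∈ EW W := by
    intro i
    rw [repr_EW]
    intro n hn
    exact Submodule.subset_span (Set.mem_iUnion.2 ⟨i, n, hn, rfl⟩)
  refine ⟨EW W, hFK, hfd, ?_⟩
  choose u hu using fun i => exists_uq hF (hxW i) (uq_ne hK _) (uq_int hK (g i : (𝓞 K)ˣ))
  have huT : ∀ i, u i ∈ TP (EW W) := by
    intro i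
    rw [mem_TP' hF, hu]
    exact (mem_TP' hK).1 (g i).2
  have hfin := finite_TT hF
  have hinj : Function.Injective (fun i : Fin m => (QuotientGroup.mk ⟨u i, huT i⟩ : TT (EW W))) := by
    intro i j hij
    apply hf
    rw [← hg i, ← hg j, QuotientGroup.eq, Subgroup.mem_subgroupOf, mem_Sq' hK]
    rw [QuotientGroup.eq, Subgroup.mem_subgroupOf, mem_Sq' hF] at hij
    obtain ⟨t, ht, ht2⟩ := hij
    refine ⟨t, hFK ht, ?_⟩
    rw [ht2]
    have e1 : (((⟨u i, huT i⟩⁻¹ * ⟨u j, huT j⟩ : TP (EW W)) : (𝓞 (EW W))ˣ)) =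
        (u i)⁻¹ * u j := rfl
    have e2 : (((g i)⁻¹ * g j : TP K) : (𝓞 K)ˣ) = ((g i : (𝓞 K)ˣ))⁻¹ * (g j : (𝓞 K)ˣ) := rfl
    rw [e1, e2, uq_mul, uq_inv, uq_mul, uq_inv, hu, hu]
  have h6 := Nat.card_le_card_of_injective _ hinj
  rwa [Nat.card_eq_fintype_card, Fintype.card_fin] at h6

/-- bounded over the finite subfields implies finite -/
theorem finite_of_bound (hK : K ≤ Q2) (B : ℕ)
    (hB : ∀ F ≤ K, FiniteDimensional ℚ F → Nat.card (TT F) ≤ B) : Finite (TT K) := by
  by_contra hinf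
  have hinf' : Infinite (TT K) := not_finite_iff_infinite.1 hinf
  obtain ⟨F, h1, h2, h3⟩ := exists_F hK (B + 1)
    (fun i => Infinite.natEmbedding (TT K) (i : ℕ)) (by
      intro i j h
      exact Fin.ext ((Infinite.natEmbedding (TT K)).injective h))
  have := hB F h1 h2
  omega

theorem greatest (hK : K ≤ Q2) (hfin : Finite (TT K)) :
    IsGreatest {m | ∃ F ≤ K, FiniteDimensional ℚ F ∧ Nat.card (TT F) = m} (Nat.card (TT K)) := by
  constructor
  · obtain ⟨F, h1, h2, h3⟩ := exists_F hK (Nat.card (TT K)) (Finite.equivFin (TT K)).symm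
      (Finite.equivFin (TT K)).symm.injective
    exact ⟨F, h1, h2, le_antisymm (le_card hK hfin h1) h3⟩
  · rintro _ ⟨F, h1, h2, rfl⟩
    exact le_card hK hfin h1

theorem card_one (h : TP K ≤ Sq K) : Nat.card (TT K) = 1 := by
  have h1 : Nat.card (TT K) = ((Sq K).subgroupOf (TP K)).index := rfl
  rw [h1, Subgroup.index_eq_one, Subgroup.subgroupOf_eq_top]
  exact h

theorem of_card_one (h : Nat.card (TT K) ≤ 1) (h0 : Nat.card (TT K) ≠ 0) : TP K ≤ Sq K := by
  have h1 : Nat.card (TT K) = ((Sq K).subgroupOf (TP K)).index := rfl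
  rw [← Subgroup.subgroupOf_eq_top, ← Subgroup.index_eq_one]
  omega

/-- trivial classes pass to finite subfields -/
theorem triv_sub (hK : K ≤ Q2) (h : TP K ≤ Sq K) (hFK : F ≤ K) [FiniteDimensional ℚ F] :
    TP F ≤ Sq F := by
  have h1 := card_one h
  have hfin : FinE K := Nat.finite_of_card_ne_zero (by
    change Nat.card (TT K) ≠ 0
    omega)
  have h2 := le_card hK hfin hFK
  exact of_card_one (by omega) (card_ne (hFK.trans hK))

theorem triv_iff_all (hL : L ≤ Q2) :
    TP L ≤ Sq L ↔ ∀ F ≤ L, FiniteDimensional ℚ F →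
      ∃ u : (𝓞 F)ˣ, Algebra.norm ℚ ((u : 𝓞 F) : F) = -1 := by
  constructor
  · intro h F hFL hfd
    exact (triv_iff_norm (hFL.trans hL)).1 (triv_sub hL h hFL)
  · intro h
    apply converse hL
    intro W hW hWf
    have hfd := finite_EW hWf
    exact (triv_iff_norm (EW_le W)).2 (h _ (EW_le_of hW) hfd)

/-- the exceptional primes -/
theorem rigid' (hK : K ≤ Q2) (hfin : FinE K) (hinf : ¬ FiniteDimensional ℚ K) :
    ∃ S : Finset ℕ, ∀ F ≤ K, FiniteDimensional ℚ F →
      (∀ D : ℕ, Squarefree D → √(D : ℝ) ∈ F → ∀ p ∈ S, p.Prime → ¬ p ∣ D) →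
      ∃ u : (𝓞 F)ˣ, Algebra.norm ℚ ((u : 𝓞 F) : F) = -1 := by
  obtain ⟨S, hS⟩ := rigid hK hfin hinf
  refine ⟨S, fun F hFK hfd hD => ?_⟩
  have hF := hFK.trans hK
  have hle : VK F ≤ VK K := by
    intro v hv
    have hv' := VK_le hv
    rw [← sc_dd v hv', mem_VK (dd_ne_zero v hv')]
    exact hFK (sqrt_dd_mem hv)
  have h1 := hS (VK F) hle (finite_VK hF) (by
    intro v hv p hp
    by_contra hvp
    have hv' := VK_le hv
    have hpp : p.Prime := hv' p hvp
    exact hD (dd v) (squarefree_dd v hv') (sqrt_dd_mem hv) p hp hpp ((dvd_dd hv' hpp).2 hvp))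
  rw [EW_VK hF] at h1
  exact (triv_iff_norm hF).1 h1

/-- an infinite subfield with trivial classes -/
theorem exists_L (hK : K ≤ Q2) (hfin : FinE K) (hinf : ¬ FiniteDimensional ℚ K) :
    ∃ L ≤ K, ¬ FiniteDimensional ℚ L ∧ TP L ≤ Sq L := by
  obtain ⟨S, hS⟩ := rigid hK hfin hinf
  refine ⟨EW (VK K ⊓ AW S), EW_le_of inf_le_left, infinite_AW hK hinf S, ?_⟩
  apply converse (EW_le _)
  intro W hW hWf
  rw [VK_EW ((inf_le_left : VK K ⊓ AW S ≤ VK K).trans VK_le)] at hW
  exact hS W (hW.trans inf_le_left) hWf (fun v hv => (hW hv).2)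

end Pool.Agent.TPU
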