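import Pool.Agent.Work.MP_d956f3_nt.R.Lin

set_option autoImplicit false

/-! # MP_d956f3_nt: ramification -/

namespace Pool.Agent.TPU

open NumberField NumberField.Units

variable {K E F M : IntermediateField ℚ ℝ}

/-- the character as a linear map -/
noncomputable def cvl (σ : Gam) : SC →ₗ[ZMod 2] ZMod 2 where
  toFun v := cv v σ
  map_add' v w := cv_add v w σ
  map_smul' c v := by
    rcases zmod2_cases c with rfl | rfl
    · simp [cv_zero]
    · simp

theorem cvl_apply (σ : Gam) (v : SC) : cvl σ v = cv v σ := rfl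

/-- the square classes fixed by `σ` -/
noncomputable def fx (W : Submodule (ZMod 2) SC) (σ : Gam) : Submodule (ZMod 2) SC :=
  W ⊓ LinearMap.ker (cvl σ)

theorem mem_fx {W : Submodule (ZMod 2) SC} {σ : Gam} {v : SC} : v ∈ fx W σ ↔ v ∈ W ∧ cv v σ = 0 :=
  Iff.rfl

theorem fx_le (W : Submodule (ZMod 2) SC) (σ : Gam) : fx W σ ≤ W := inf_le_left

theorem fx_lt {W : Submodule (ZMod 2) SC} {σ : Gam} {v : SC} (hv : v ∈ W) (h : cv v σ = 1) :
    fx W σ < W := by
  refine lt_of_le_of_ne (fx_le W σ) (fun h1 => ?_)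
  rw [← h1, mem_fx, h] at hv
  exact absurd hv.2 (by decide)

theorem repr_EW {W : Submodule (ZMod 2) SC} {x : Q2} :
    (x : ℝ) ∈ EW W ↔ ∀ n ∈ (bas.repr x).support, sc ((n : SF) : ℕ) ∈ W := by
  rw [repr_coe (EW W) (EW_le W)]
  exact forall₂_congr fun n _ => sqrt_mem_EW W n.2.ne_zero

/-- fixed elements -/
theorem fixed_mem {W : Submodule (ZMod 2) SC} {σ : Gam} {x : Q2} (hx : (x : ℝ) ∈ EW W)
    (h : σ x = x) : (x : ℝ) ∈ EW (fx W σ) := by
  rw [repr_EW] at hx ⊢
  intro n hn
  refine ⟨hx n hn, ?_⟩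
  have h1 := repr_map σ x n
  rw [h] at h1
  have h3 : bas.repr x n ≠ 0 := Finsupp.mem_support_iff.1 hn
  have h7 : sq (ch (n : ℕ) σ) = sq 0 := by
    have h8 : (1 : ℚ) * bas.repr x n = sq (ch (n : ℕ) σ) * bas.repr x n := by
      rw [one_mul]
      exact h1
    rw [← mul_right_cancel₀ h3 h8]
    rfl
  change cv (sc (n : ℕ)) σ = 0
  rw [← ch_eq_cv n.2.ne_zero]
  exact sq_inj h7

/-- endomorphisms with trivial characters fix the field -/
theorem fix_of_cv {W : Submodule (ZMod 2) SC} {σ : Gam} (h : ∀ v ∈ W, cv v σ = 0) {x : Q2}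
    (hx : (x : ℝ) ∈ EW W) : σ x = x := by
  apply bas.repr.injective
  ext n
  rw [repr_map]
  by_cases hn : n ∈ (bas.repr x).support
  · have h1 := h _ (repr_EW.1 hx n hn)
    rw [← ch_eq_cv n.2.ne_zero] at h1
    rw [h1]
    simp [sq]
  · rw [Finsupp.notMem_support_iff.1 hn, mul_zero]

theorem cv_of_fix {W : Submodule (ZMod 2) SC} (hW : W ≤ PS) {σ : Gam}
    (h : ∀ x : Q2, (x : ℝ) ∈ EW W → σ x = x) {v : SC} (hv : v ∈ W) : cv v σ = 0 := by
  have h0 := dd_ne_zero v (hW hv)
  have h1 : ((rt (dd v) : Q2) : ℝ) ∈ EW W := by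
    rw [coe_rt, sqrt_mem_EW W h0, sc_dd v (hW hv)]
    exact hv
  have h2 := h _ h1
  have h3 : ch (dd v) σ = 0 := by
    unfold ch
    rw [if_pos h2]
  rw [ch_eq_cv h0, sc_dd v (hW hv)] at h3
  exact h3

/-- induction on finite sets of square classes -/
theorem W_induction {p : Submodule (ZMod 2) SC → Prop}
    (h : ∀ W : Submodule (ZMod 2) SC, (W : Set SC).Finite → (∀ W' < W, p W') → p W)
    (W : Submodule (ZMod 2) SC) (hW : (W : Set SC).Finite) : p W := by
  induction hn : (W : Set SC).ncard using Nat.strong_induction_on generalizing W with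
  | _ n ih =>
    apply h W hW
    intro W' hW'
    have hs : (W' : Set SC) ⊂ (W : Set SC) := hW'
    refine ih _ ?_ W' (hW.subset hs.1) rfl
    rw [← hn]
    exact Set.ncard_lt_ncard hs hW

/-- elements of the smallest field are rational -/
theorem EW_bot {x : Q2} (hx : (x : ℝ) ∈ EW ⊥) : ∃ r : ℚ, x = (r : Q2) := by
  have h1 := repr_EW.1 hx
  have h2 : ∀ n ∈ (bas.repr x).support, n = (⟨1, squarefree_one⟩ : SF) := by
    intro n hn
    have h3 : sc ((n : SF) : ℕ) = 0 := h1 n hn
    apply Subtype.ext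
    apply eq_of_sc n.2 squarefree_one
    rw [h3, sc_one]
  refine ⟨bas.repr x ⟨1, squarefree_one⟩, ?_⟩
  have h3 : bas.repr x = Finsupp.single ⟨1, squarefree_one⟩ (bas.repr x ⟨1, squarefree_one⟩) := by
    ext n
    by_cases hn : n = ⟨1, squarefree_one⟩
    · rw [hn, Finsupp.single_eq_same]
    · rw [Finsupp.single_apply, if_neg (Ne.symm hn)]
      by_contra h4
      exact hn (h2 n (Finsupp.mem_support_iff.2 h4))
  have h4 : x = bas.repr x ⟨1, squarefree_one⟩ • bas ⟨1, squarefree_one⟩ := by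
    conv_lhs => rw [← bas.linearCombination_repr x, h3, Finsupp.linearCombination_single]
  have h5 : bas ⟨1, squarefree_one⟩ = (1 : Q2) := by
    rw [bas_apply]
    apply Subtype.ext
    change √((1 : ℕ) : ℝ) = 1
    simp
  rw [h5] at h4
  conv_lhs => rw [h4]
  rw [Rat.smul_def, mul_one]

theorem int_rat {r : ℚ} (h : IsIntegral ℤ ((r : Q2))) : ∃ z : ℤ, (z : ℚ) = r := by
  have h1 : IsIntegral ℤ r := by
    have h2 : IsIntegral ℤ (algebraMap ℚ Q2 r) := h
    exact (isIntegral_algebraMap_iff (algebraMap ℚ Q2).injective).1 h2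
  exact IsIntegrallyClosed.isIntegral_iff.1 h1

theorem int_int (z : ℤ) : IsIntegral ℤ ((z : Q2)) := by
  have h : IsIntegral ℤ ((algebraMap ℤ Q2) z) := isIntegral_algebraMap
  simpa using h

theorem int_nat' (z : ℕ) : IsIntegral ℤ ((z : Q2)) := by
  have := int_int z
  simpa using this

theorem int_rt (n : ℕ) : IsIntegral ℤ (rt n) := int_Q2.1 (int_sqrt n)

theorem int_of_sq {x : Q2} (h : IsIntegral ℤ (x ^ 2)) : IsIntegral ℤ x := IsIntegral.of_pow two_pos h

/-- `q` is unramified -/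
def Ok (q : ℕ) (W : Submodule (ZMod 2) SC) : Prop :=
  ∀ v ∈ W, ¬ q ∣ dd v ∧ (q = 2 → dd v % 4 = 1)

theorem unr {q : ℕ} (hq : q.Prime) (W : Submodule (ZMod 2) SC) (hW : (W : Set SC).Finite) :
    W ≤ PS → Ok q W → ∀ x : Q2, (x : ℝ) ∈ EW W → IsIntegral ℤ x → IsIntegral ℤ (x ^ 2 / q) →
    IsIntegral ℤ (x / q) := by
  refine W_induction (p := fun W => W ≤ PS → Ok q W → ∀ x : Q2, (x : ℝ) ∈ EW W →
    IsIntegral ℤ x → IsIntegral ℤ (x ^ 2 / q) → IsIntegral ℤ (x / q)) ?_ W hW
  clear hW W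
  intro W hW ih hPS hok x hx hi hi2
  have hq0 : (q : Q2) ≠ 0 := by exact_mod_cast hq.ne_zero
  by_cases hbot : W = ⊥
  · subst hbot
    obtain ⟨r, rfl⟩ := EW_bot hx
    obtain ⟨z, rfl⟩ := int_rat hi
    have h1 : IsIntegral ℤ ((((z : ℚ) ^ 2 / q : ℚ)) : Q2) := by
      push_cast
      push_cast at hi2
      exact hi2
    obtain ⟨y, hy⟩ := int_rat h1
    have hq0' : (q : ℚ) ≠ 0 := by exact_mod_cast hq.ne_zero
    rw [eq_div_iff hq0'] at hy
    have h2 : (q : ℤ) ∣ z ^ 2 := ⟨y, by
      have h3 : (y : ℚ) * q = (z : ℚ) ^ 2 := hy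
      have h4 : (y * q : ℤ) = z ^ 2 := by exact_mod_cast h3
      rw [← h4]
      ring⟩
    have h3 : (q : ℤ) ∣ z := (Nat.prime_iff_prime_int.1 hq).dvd_of_dvd_pow h2
    obtain ⟨w, rfl⟩ := h3
    have h4 : (((q * w : ℤ) : ℚ) : Q2) / q = (w : Q2) := by
      push_cast
      field_simp
    rw [h4]
    exact int_int w
  · obtain ⟨v, hv, hv0⟩ := (Submodule.ne_bot_iff W).1 hbot
    obtain ⟨σ, hσ⟩ := cv_one (hPS hv) hv0
    have hlt := fx_lt hv hσ
    have hok' : Ok q (fx W σ) := fun w hw => hok w (fx_le W σ hw)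
    have hIH := ih (fx W σ) hlt (hlt.le.trans hPS) hok'
    set D := dd v with hD
    have hD0 : D ≠ 0 := dd_ne_zero v (hPS hv)
    have hDW : ((rt D : Q2) : ℝ) ∈ EW W := by
      rw [coe_rt, sqrt_mem_EW W hD0, sc_dd v (hPS hv)]
      exact hv
    have hσD : σ (rt D) = -rt D := by
      rw [ch_spec, ch_eq_cv hD0, sc_dd v (hPS hv), hσ, sg_one, neg_one_mul]
    have hσx : ((σ x : Q2) : ℝ) ∈ EW W := stab (EW_le W) σ hx
    have hiσ := int_map hi σ
    have hi2σ : IsIntegral ℤ ((σ x) ^ 2 / q) := by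
      have h := int_map hi2 σ
      rw [map_div₀, map_pow, map_natCast] at h
      exact h
    have hprod : IsIntegral ℤ (x * σ x / q) := by
      apply int_of_sq
      have h : (x * σ x / q) ^ 2 = (x ^ 2 / q) * ((σ x) ^ 2 / q) := by
        field_simp
      rw [h]
      exact hi2.mul hi2σ
    have hrt : rt D * rt D = (D : Q2) := rt_mul_self D
    -- the general trace
    have htr : ∀ y : Q2, (y : ℝ) ∈ EW W → IsIntegral ℤ y → IsIntegral ℤ (y ^ 2 / q) →
        IsIntegral ℤ (y * σ y / q) → IsIntegral ℤ ((y + σ y) / q) := by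
      intro y hy h1 h2 h3
      apply hIH
      · apply fixed_mem
        · exact add_mem hy (stab (EW_le W) σ hy)
        · rw [map_add, invol]
          ring
      · exact h1.add (int_map h1 σ)
      · have h4 : (y + σ y) ^ 2 / q = y ^ 2 / q + (σ y) ^ 2 / q + 2 * (y * σ y / q) := by ring
        rw [h4]
        have h5 : IsIntegral ℤ ((σ y) ^ 2 / q) := by
          have h := int_map h2 σ
          rw [map_div₀, map_pow, map_natCast] at h
          exact h
        have h6 : IsIntegral ℤ (2 : Q2) := by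
          have := int_nat' 2
          exact_mod_cast this
        exact (h2.add h5).add (h6.mul h3)
    have ht := htr x hx hi hi2 hprod
    by_cases hq2 : q = 2
    · subst hq2
      have hD4 : D % 4 = 1 := (hok v hv).2 rfl
      obtain ⟨k, hk⟩ : ∃ k, D = 4 * k + 1 := ⟨D / 4, by omega⟩
      set ω : Q2 := (1 + rt D) / 2 with hω
      have hωW : (ω : ℝ) ∈ EW W := by
        have h1 : (ω : ℝ) = (1 + ((rt D : Q2) : ℝ)) / 2 := rfl
        rw [h1]
        exact div_mem (add_mem (one_mem _) hDW) (ofNat_mem _ 2)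
      have hω2 : ω ^ 2 = ω + k := by
        have h1 : (D : Q2) = 4 * k + 1 := by exact_mod_cast congrArg (Nat.cast : ℕ → Q2) hk
        rw [hω]
        field_simp
        calc (1 + rt D) ^ 2 = 1 + 2 * rt D + rt D * rt D := by ring
          _ = 1 + 2 * rt D + (4 * k + 1) := by rw [hrt, h1]
          _ = _ := by ring
      have hωi : IsIntegral ℤ ω := by
        refine ⟨Polynomial.X ^ 2 - Polynomial.X - Polynomial.C (k : ℤ), ?_, ?_⟩
        · have h1 : (Polynomial.X ^ 2 - Polynomial.X - Polynomial.C (k : ℤ) : Polynomial ℤ) =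
              Polynomial.X ^ 2 + (-Polynomial.X - Polynomial.C (k : ℤ)) := by ring
          rw [h1]
          apply Polynomial.monic_X_pow_add
          have h2 : (-Polynomial.X - Polynomial.C (k : ℤ) : Polynomial ℤ) =
              -(Polynomial.X + Polynomial.C (k : ℤ)) := by ring
          rw [h2, Polynomial.degree_neg, Polynomial.degree_X_add_C]
          norm_num
        · simp only [Polynomial.eval₂_sub, Polynomial.eval₂_pow, Polynomial.eval₂_X,
            Polynomial.eval₂_C]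
          rw [hω2]
          simp
      have hσω : σ ω = 1 - ω := by
        rw [hω, map_div₀, map_add, map_one, hσD, map_ofNat]
        ring
      have h1 : IsIntegral ℤ ((ω * x) ^ 2 / (2 : ℕ)) := by
        have h : (ω * x) ^ 2 / ((2 : ℕ) : Q2) = ω ^ 2 * (x ^ 2 / ((2 : ℕ) : Q2)) := by ring
        rw [h]
        exact (hωi.pow 2).mul hi2
      have h2 : IsIntegral ℤ ((ω * x) * σ (ω * x) / (2 : ℕ)) := by
        have h : (ω * x) * σ (ω * x) / ((2 : ℕ) : Q2) =
            ω * σ ω * (x * σ x / ((2 : ℕ) : Q2)) := by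
          rw [map_mul]
          ring
        rw [h]
        exact (hωi.mul (int_map hωi σ)).mul hprod
      have ht2 := htr (ω * x) (mul_mem hωW hx) (hωi.mul hi) h1 h2
      have h3 : rt D * (σ x / ((2 : ℕ) : Q2)) = ω * ((x + σ x) / ((2 : ℕ) : Q2)) -
          (ω * x + σ (ω * x)) / ((2 : ℕ) : Q2) := by
        rw [map_mul, hσω]
        have h4 : rt D = 2 * ω - 1 := by
          rw [hω]
          ring
        rw [h4]
        ring
      have h4 : IsIntegral ℤ (rt D * (σ x / ((2 : ℕ) : Q2))) := by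
        rw [h3]
        exact (hωi.mul ht).sub ht2
      have h5 : IsIntegral ℤ (σ x / ((2 : ℕ) : Q2)) := by
        have h6 : σ x / ((2 : ℕ) : Q2) = rt D * (rt D * (σ x / ((2 : ℕ) : Q2))) -
            ((2 * k : ℕ) : Q2) * σ x := by
          have h1 : (D : Q2) = 4 * k + 1 := by exact_mod_cast congrArg (Nat.cast : ℕ → Q2) hk
          rw [← mul_assoc, hrt, h1]
          push_cast
          ring
        rw [h6]
        exact ((int_rt D).mul h4).sub ((int_nat' _).mul hiσ)
      have h6 := int_map h5 σ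
      rw [map_div₀, invol, map_natCast] at h6
      exact h6
    · -- `q` odd
      have hy1 : ((x * rt D : Q2) : ℝ) ∈ EW W := mul_mem hx hDW
      have h1 : IsIntegral ℤ ((x * rt D) ^ 2 / q) := by
        have h : (x * rt D) ^ 2 / (q : Q2) = (rt D) ^ 2 * (x ^ 2 / (q : Q2)) := by ring
        rw [h]
        exact ((int_rt D).pow 2).mul hi2
      have h2 : IsIntegral ℤ ((x * rt D) * σ (x * rt D) / q) := by
        have h : (x * rt D) * σ (x * rt D) / (q : Q2) =
            rt D * σ (rt D) * (x * σ x / (q : Q2)) := by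
          rw [map_mul]
          ring
        rw [h]
        exact ((int_rt D).mul (int_map (int_rt D) σ)).mul hprod
      have ht2 := htr (x * rt D) hy1 (hi.mul (int_rt D)) h1 h2
      have h3 : ((2 * D : ℕ) : Q2) * (x / q) = (D : Q2) * ((x + σ x) / q) +
          rt D * ((x * rt D + σ (x * rt D)) / q) := by
        rw [map_mul, hσD]
        push_cast
        have h4 : rt D * ((x * rt D + σ x * -rt D) / (q : Q2)) = (rt D * rt D) * ((x - σ x) / q) := by
          ring
        rw [h4, hrt]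
        ring
      have h4 : IsIntegral ℤ (((2 * D : ℕ) : Q2) * (x / q)) := by
        rw [h3]
        exact ((int_nat' D).mul ht).add ((int_rt D).mul ht2)
      have hcop : Nat.Coprime (2 * D) q := by
        rw [Nat.coprime_comm, hq.coprime_iff_not_dvd]
        intro h5
        rcases (Nat.Prime.dvd_mul hq).1 h5 with h6 | h6
        · exact hq2 ((Nat.prime_dvd_prime_iff_eq hq Nat.prime_two).1 h6)
        · exact (hok v hv).1 h6
      have hbez := Nat.gcd_eq_gcd_ab (2 * D) q
      rw [hcop.gcd_eq_one] at hbez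
      set a := Nat.gcdA (2 * D) q
      set b := Nat.gcdB (2 * D) q
      have h5 : x / (q : Q2) = (a : Q2) * (((2 * D : ℕ) : Q2) * (x / q)) + (b : Q2) * x := by
        have h6 : ((1 : ℤ) : Q2) = ((2 * D : ℕ) : Q2) * a + (q : Q2) * b := by
          have := congrArg (Int.cast : ℤ → Q2) hbez
          push_cast at this ⊢
          exact this
        rw [Int.cast_one] at h6
        calc x / (q : Q2) = 1 * (x / q) := by rw [one_mul]
          _ = (((2 * D : ℕ) : Q2) * a + (q : Q2) * b) * (x / q) := by rw [h6]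
          _ = (a : Q2) * (((2 * D : ℕ) : Q2) * (x / q)) + b * ((q : Q2) * (x / q)) := by ring
          _ = _ := by rw [mul_div_cancel₀ x hq0]
      rw [h5]
      exact ((int_int a).mul h4).add ((int_int b).mul hi)

/-- the rational factor of a unit is ramified -/
theorem unr_unit {q n : ℕ} (hq : q.Prime) (hn : Squarefree n) (hqn : q ∣ n)
    {W : Submodule (ZMod 2) SC} (hW : (W : Set SC).Finite) (hPS : W ≤ PS) (hok : Ok q W)
    {u y : Q2} (hui : IsIntegral ℤ u) (hui' : IsIntegral ℤ u⁻¹) (hu0 : u ≠ 0)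
    (hy : (y : ℝ) ∈ EW W) (h : u = n * y ^ 2) : False := by
  obtain ⟨n', rfl⟩ := hqn
  have hq0 : (q : Q2) ≠ 0 := by exact_mod_cast hq.ne_zero
  set z : Q2 := ((q * n' : ℕ) : Q2) * y with hz
  have hz2 : z ^ 2 = ((q * n' : ℕ) : Q2) * u := by
    rw [hz, h]
    ring
  have h1 : IsIntegral ℤ z := by
    apply int_of_sq
    rw [hz2]
    exact (int_nat' _).mul hui
  have h2 : IsIntegral ℤ (z ^ 2 / q) := by
    have h3 : z ^ 2 / (q : Q2) = (n' : Q2) * u := by
      rw [hz2]
      push_cast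
      field_simp
    rw [h3]
    exact (int_nat' _).mul hui
  have hzm : (z : ℝ) ∈ EW W := by
    have : (z : ℝ) = ((q * n' : ℕ) : ℝ) * (y : ℝ) := by
      rw [hz]
      push_cast
      rfl
    rw [this]
    exact mul_mem (natCast_mem _ _) hy
  have h3 := unr hq W hW hPS hok z hzm h1 h2
  have h4 : IsIntegral ℤ ((((n' : ℚ) / q : ℚ)) : Q2) := by
    have h5 : ((((n' : ℚ) / q : ℚ)) : Q2) = (z / q) ^ 2 * u⁻¹ := by
      rw [div_pow, hz2]
      push_cast
      field_simp
    rw [h5]
    exact (h3.pow 2).mul hui'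
  obtain ⟨w, hw⟩ := int_rat h4
  have hq0' : (q : ℚ) ≠ 0 := by exact_mod_cast hq.ne_zero
  rw [eq_div_iff hq0'] at hw
  have h5 : (q : ℤ) ∣ (n' : ℤ) := ⟨w, by
    have h6 : (w * q : ℤ) = (n' : ℤ) := by exact_mod_cast hw
    rw [← h6]
    ring⟩
  have h6 : q ∣ n' := by exact_mod_cast h5
  obtain ⟨m, rfl⟩ := h6
  have h7 : q * q ∣ q * (q * m) := ⟨m, by ring⟩
  exact hq.one_lt.ne' (Nat.isUnit_iff.1 (hn q h7))

end Pool.Agent.TPU
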